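import Mathlib

/-! Weierstrass division in a flat deformation `B` of a discrete valuation ring `O` over a local
Artinian ring `A`. -/

open Finset IsLocalRing

namespace Pool.Agent.MP_deef5c_ag

variable {A B O : Type*} [CommRing A] [IsLocalRing A] [IsArtinianRing A] [CommRing B] [Algebra A B]
  [CommRing O] [IsDomain O]

theorem nilp_max : ∃ n : ℕ, maximalIdeal A ^ n = ⊥ := by
  have h := IsArtinianRing.isNilpotent_jacobson_bot (R := A)
  rw [IsLocalRing.jacobson_eq_maximalIdeal ⊥ bot_ne_top] at h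
  exact h

theorem nak {M : Type*} [AddCommGroup M] [Module A M] {N P : Submodule A M}
    (h : P ≤ N ⊔ maximalIdeal A • P) : P ≤ N := by
  obtain ⟨n, hn⟩ := nilp_max (A := A)
  have key : ∀ i : ℕ, P ≤ N ⊔ maximalIdeal A ^ i • P := by
    intro i
    induction i with
    | zero => simp
    | succ i ih =>
      refine ih.trans (sup_le le_sup_left ?_)
      refine (Submodule.smul_mono le_rfl h).trans ?_
      rw [Submodule.smul_sup, ← Submodule.mul_smul, ← pow_succ]
      exact sup_le_sup_right Submodule.smul_le_right _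
  simpa [hn] using key n

/-- `B` is a deformation of `O` over `A`, and `t` lifts a uniformiser. -/
structure Setup (A : Type*) {B O : Type*} [CommRing A] [IsLocalRing A] [CommRing B] [Algebra A B]
    [CommRing O] (ψ : B →+* O) (t : B) : Prop where
  surj : Function.Surjective ψ
  ker : RingHom.ker ψ = (maximalIdeal A).map (algebraMap A B)
  ne : ψ t ≠ 0
  nu : ¬ IsUnit (ψ t)
  res : ∀ y : O, ∃ a : A, ψ t ∣ y - ψ (algebraMap A B a)
  pw : ∀ y : O, y ≠ 0 → ∃ n : ℕ, Associated y (ψ t ^ n)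

namespace Setup

variable {ψ : B →+* O} {t : B}

omit [IsArtinianRing A] [IsDomain O] in
theorem zero_of_mem (S : Setup A ψ t) {a : A} (ha : a ∈ maximalIdeal A) :
    ψ (algebraMap A B a) = 0 := by
  rw [← RingHom.mem_ker, S.ker]
  exact Ideal.mem_map_of_mem _ ha

omit [IsArtinianRing A] [IsDomain O] in
theorem mem_smul (S : Setup A ψ t) {b : B} (hb : ψ b = 0) :
    b ∈ maximalIdeal A • (⊤ : Submodule A B) := by
  rw [Ideal.smul_top_eq_map, Submodule.restrictScalars_mem, ← S.ker]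
  exact hb

omit [IsDomain O] in
theorem nilp (S : Setup A ψ t) {b : B} (hb : ψ b = 0) : IsNilpotent b := by
  obtain ⟨n, hn⟩ := nilp_max (A := A)
  have h1 : b ∈ (maximalIdeal A).map (algebraMap A B) := by rw [← S.ker]; exact hb
  have h2 := Ideal.pow_mem_pow h1 n
  rw [← Ideal.map_pow, hn, Ideal.map_bot] at h2
  exact ⟨n, h2⟩

omit [IsArtinianRing A] [IsDomain O] in
theorem span_O (S : Setup A ψ t) (d : ℕ) (y : O) :
    ∃ a : Fin d → A, ψ t ^ d ∣ y - ∑ j, ψ (algebraMap A B (a j)) * ψ t ^ (j : ℕ) := by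
  induction d generalizing y with
  | zero => exact ⟨fun _ => 0, by simp⟩
  | succ d ih =>
    obtain ⟨a0, z, hz⟩ := S.res y
    obtain ⟨a, u, hu⟩ := ih z
    refine ⟨Fin.cons a0 a, u, ?_⟩
    rw [Fin.sum_univ_succ]
    simp only [Fin.cons_zero, Fin.cons_succ, Fin.val_zero, pow_zero, mul_one, Fin.val_succ, pow_succ,
      ← mul_assoc, ← sum_mul]
    linear_combination hz + ψ t * hu

omit [IsArtinianRing A] in
theorem coef (S : Setup A ψ t) (d : ℕ) (e : ℕ) (a : Fin d → A)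
    (h : ψ t ^ e ∣ ∑ j, ψ (algebraMap A B (a j)) * ψ t ^ (j : ℕ)) (j : Fin d) (hj : (j : ℕ) < e) :
    a j ∈ maximalIdeal A := by
  induction d generalizing e with
  | zero => exact j.elim0
  | succ d ih =>
    obtain ⟨e, rfl⟩ : ∃ e', e = e' + 1 := ⟨e - 1, by omega⟩
    rw [Fin.sum_univ_succ] at h
    simp only [Fin.val_zero, pow_zero, mul_one, Fin.val_succ, pow_succ, ← mul_assoc,
      ← sum_mul] at h
    have h0 : a 0 ∈ maximalIdeal A := by
      by_contra hu
      have hu' : IsUnit (a 0) := by simpa using hu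
      have h1 : ψ t ∣ ψ (algebraMap A B (a 0)) :=
        (dvd_add_left (Dvd.intro_left _ rfl)).1 ((Dvd.intro_left _ rfl).trans h)
      exact S.nu (isUnit_of_dvd_unit h1 ((hu'.map _).map _))
    rw [S.zero_of_mem h0, zero_add, mul_dvd_mul_iff_right S.ne] at h
    refine Fin.cases (motive := fun j : Fin (d + 1) => (j : ℕ) < e + 1 → a j ∈ maximalIdeal A)
      (fun _ => h0) (fun i hi => ?_) j hj
    exact ih e (fun i => a i.succ) h i (by simpa using hi)

/-- the division map -/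
noncomputable def dv (A : Type*) [CommRing A] [Algebra A B] (t δ : B) (d : ℕ) :
    ((Fin d → A) × B) →ₗ[A] B :=
  (Fintype.linearCombination A fun j : Fin d => t ^ (j : ℕ)).coprod (LinearMap.mulLeft A δ)

omit [IsLocalRing A] [IsArtinianRing A] in
theorem dv_apply (t δ : B) (d : ℕ) (a : Fin d → A) (b : B) :
    dv A t δ d (a, b) = ∑ j, algebraMap A B (a j) * t ^ (j : ℕ) + δ * b := by
  simp [dv, Fintype.linearCombination_apply, Algebra.smul_def]

omit [IsDomain O] in
theorem dv_surj (S : Setup A ψ t) {δ : B} {d : ℕ} (h : ψ δ ∣ ψ t ^ d) :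
    Function.Surjective (dv A t δ d) := by
  rw [← LinearMap.range_eq_top, eq_top_iff]
  refine nak fun b _ => ?_
  obtain ⟨a, ha⟩ := S.span_O d (ψ b)
  obtain ⟨z, hz⟩ := h.trans ha
  obtain ⟨z, rfl⟩ := S.surj z
  rw [Submodule.mem_sup]
  refine ⟨dv A t δ d (a, z), LinearMap.mem_range_self _ _, b - dv A t δ d (a, z), S.mem_smul ?_,
    by ring⟩
  rw [dv_apply]
  simp only [map_sub, map_add, map_sum, map_mul, map_pow]
  linear_combination hz

theorem dv_inj [Module.Flat A B] (S : Setup A ψ t) {δ : B} {d : ℕ}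
    (h : Associated (ψ δ) (ψ t ^ d)) : Function.Injective (dv A t δ d) := by
  classical
  rw [← LinearMap.ker_eq_bot, eq_bot_iff]
  refine nak ?_
  rw [bot_sup_eq, ← LinearMap.ker_inf_smul_top_eq_smul_of_flat _ _ (S.dv_surj h.dvd)]
  refine le_inf le_rfl ?_
  rintro ⟨a, b⟩ hab
  rw [LinearMap.mem_ker, dv_apply] at hab
  have h1 := congrArg ψ hab
  simp only [map_add, map_sum, map_mul, map_pow, map_zero] at h1
  have h2 : ∀ j, a j ∈ maximalIdeal A := fun j => S.coef d d a (by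
    rw [eq_neg_of_add_eq_zero_left h1, dvd_neg]
    exact h.symm.dvd.mul_right _) j j.2
  simp only [S.zero_of_mem (h2 _), zero_mul, sum_const_zero, zero_add] at h1
  have h3 : ψ δ ≠ 0 := h.ne_zero_iff.2 (pow_ne_zero _ S.ne)
  have h4 := S.mem_smul ((mul_eq_zero.1 h1).resolve_left h3)
  have h5 : ((a, b) : (Fin d → A) × B) =
      ∑ j, a j • ((Pi.single j 1, 0) : (Fin d → A) × B) + LinearMap.inr A (Fin d → A) B b := by
    ext j
    · simp [Prod.fst_sum, Pi.single_apply]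
    · simp [Prod.snd_sum]
  rw [h5]
  refine add_mem (sum_mem fun j _ => Submodule.smul_mem_smul (h2 j) Submodule.mem_top) ?_
  have h6 := Submodule.mem_map_of_mem (f := LinearMap.inr A (Fin d → A) B) h4
  rw [Submodule.map_smul''] at h6
  exact Submodule.smul_mono le_rfl le_top h6

theorem nzd [Module.Flat A B] (S : Setup A ψ t) {δ : B} (h : ψ δ ≠ 0) {b : B} (hb : δ * b = 0) :
    b = 0 := by
  obtain ⟨d, hd⟩ := S.pw _ h
  have : dv A t δ d (0, b) = dv A t δ d 0 := by rw [dv_apply]; simp [hb]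
  exact congrArg Prod.snd (S.dv_inj hd this)

omit [IsDomain O] in
theorem dvd_pow (S : Setup A ψ t) {δ x : B} (h : ψ δ ≠ 0) (hx : ψ t ∣ ψ x) :
    ∃ n : ℕ, δ ∣ x ^ n := by
  obtain ⟨d, hd⟩ := S.pw _ h
  obtain ⟨z, hz⟩ := hd.dvd.trans (pow_dvd_pow_of_dvd hx d)
  obtain ⟨z, rfl⟩ := S.surj z
  obtain ⟨n, hn⟩ := S.nilp (b := x ^ d - δ * z) (by simp [hz])
  refine ⟨d * n, ?_⟩
  have h1 := sub_dvd_pow_sub_pow (x ^ d) (x ^ d - δ * z) n
  rw [hn, sub_zero, sub_sub_cancel, ← pow_mul] at h1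
  exact (Dvd.intro _ rfl).trans h1

/-- first order expansion, uniform in a finite family of endomorphisms -/
theorem expand (S : Setup A ψ t) {ι : Type*} [Finite ι] (T : ι → B →ₐ[A] B)
    (h1 : ∀ i, ψ (T i t - t) ≠ 0) (h2 : ∀ i, ψ t ∣ ψ (T i t)) (b : B) :
    ∃ b' : B, ∀ i, (T i t - t) ^ 2 ∣ T i b - b - b' * (T i t - t) := by
  have hne : ∀ i, ψ ((T i t - t) ^ 2) ≠ 0 := fun i => by
    rw [map_pow]; exact pow_ne_zero _ (h1 i)
  choose n1 hn1 using fun i => S.dvd_pow (hne i) (dvd_refl (ψ t))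
  choose n2 hn2 using fun i => S.dvd_pow (hne i) (h2 i)
  obtain ⟨N1, hN1⟩ := (Set.finite_range n1).bddAbove
  obtain ⟨N2, hN2⟩ := (Set.finite_range n2).bddAbove
  obtain ⟨⟨a, z⟩, rfl⟩ := S.dv_surj (δ := t ^ (N1 + N2)) (d := N1 + N2) (by simp) b
  refine ⟨∑ j, algebraMap A B (a j) * (t ^ ((j : ℕ) - 1) * (j : ℕ)), fun i => ?_⟩
  have e1 : (T i t - t) ^ 2 ∣ t ^ (N1 + N2) :=
    (hn1 i).trans (pow_dvd_pow _ ((hN1 ⟨i, rfl⟩).trans (Nat.le_add_right _ _)))
  have e2 : (T i t - t) ^ 2 ∣ T i t ^ (N1 + N2) :=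
    (hn2 i).trans (pow_dvd_pow _ ((hN2 ⟨i, rfl⟩).trans (Nat.le_add_left _ _)))
  have e3 : (T i t - t) ^ 2 ∣ ∑ j : Fin (N1 + N2), algebraMap A B (a j) *
      ((t + (T i t - t)) ^ (j : ℕ) - t ^ ((j : ℕ) - 1) * (T i t - t) * (j : ℕ) - t ^ (j : ℕ)) :=
    dvd_sum fun j _ => (sq_dvd_add_pow_sub_sub _ _ _).mul_left _
  have e4 := dvd_sub (dvd_add e3 (e2.mul_right (T i z))) (e1.mul_right z)
  convert e4 using 1
  rw [dv_apply]
  simp only [map_add, map_sum, map_mul, map_pow, AlgHom.commutes, add_sub_cancel, sum_mul, mul_sub,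
    sum_sub_distrib]
  have : ∀ j : Fin (N1 + N2), algebraMap A B (a j) * (t ^ ((j : ℕ) - 1) * (j : ℕ)) * T i t -
      algebraMap A B (a j) * (t ^ ((j : ℕ) - 1) * (j : ℕ)) * t =
      algebraMap A B (a j) * ((t ^ ((j : ℕ) - 1) * T i t - t ^ ((j : ℕ) - 1) * t) * (j : ℕ)) :=
    fun j => by ring
  rw [← sum_sub_distrib, sum_congr rfl fun j _ => this j]
  ring

/-- the trace of an endomorphism on the fixed scheme, modulo the maximal ideal -/
theorem trace_mod [Module.Flat A B] (S : Setup A ψ t) {δ : B} {d : ℕ}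
    (h : Associated (ψ δ) (ψ t ^ d)) (T : B →ₐ[A] B)
    (U : (B ⧸ Ideal.span {δ}) →ₗ[A] (B ⧸ Ideal.span {δ}))
    (hU : ∀ b, U (Ideal.Quotient.mk _ b) = Ideal.Quotient.mk _ (T b)) (c : A)
    (hc : ψ t ^ 2 ∣ ψ (T t) - ψ (algebraMap A B c) * ψ t) :
    LinearMap.trace A _ U - ∑ j ∈ range d, c ^ j ∈ maximalIdeal A := by
  classical
  let e : (Fin d → A) →ₗ[A] (B ⧸ Ideal.span {δ}) :=
    (Ideal.Quotient.mkₐ A (Ideal.span {δ})).toLinearMap ∘ₗ dv A t δ d ∘ₗ LinearMap.inl A _ _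
  have he : ∀ a b, e a = Ideal.Quotient.mk _ (dv A t δ d (a, b)) := by
    intro a b
    change Ideal.Quotient.mk _ (dv A t δ d (a, 0)) = _
    rw [Ideal.Quotient.eq, dv_apply, dv_apply, Ideal.mem_span_singleton]
    exact ⟨-b, by ring⟩
  have hbij : Function.Bijective e := by
    constructor
    · rw [injective_iff_map_eq_zero]
      intro a ha
      rw [he a 0, Ideal.Quotient.eq_zero_iff_mem, Ideal.mem_span_singleton] at ha
      obtain ⟨z, hz⟩ := ha
      have : dv A t δ d (a, -z) = dv A t δ d 0 := by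
        rw [dv_apply] at hz ⊢
        rw [map_zero]
        linear_combination hz
      exact congrArg Prod.fst (S.dv_inj h this)
    · intro q
      obtain ⟨b, rfl⟩ := Ideal.Quotient.mk_surjective q
      obtain ⟨⟨a, z⟩, rfl⟩ := S.dv_surj h.dvd b
      exact ⟨a, he a z⟩
  let E := LinearEquiv.ofBijective e hbij
  rw [← LinearMap.trace_conj' U E.symm, LinearMap.trace_eq_matrix_trace A (Pi.basisFun A (Fin d)),
    Matrix.trace, ← Fin.sum_univ_eq_sum_range (fun j => c ^ j), ← sum_sub_distrib]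
  refine sum_mem fun j _ => ?_
  obtain ⟨⟨a, z⟩, hz⟩ := S.dv_surj h.dvd (T (t ^ (j : ℕ)))
  have h1 : E (Pi.single j 1) = Ideal.Quotient.mk _ (t ^ (j : ℕ)) := by
    change e _ = _
    rw [he _ 0, dv_apply]
    simp [Pi.single_apply]
  have h2 : E.symm (Ideal.Quotient.mk _ (T (t ^ (j : ℕ)))) = a := by
    rw [LinearEquiv.symm_apply_eq, ← hz]
    exact (he a z).symm
  have h3 : (LinearMap.toMatrix (Pi.basisFun A (Fin d)) (Pi.basisFun A (Fin d))
      (E.symm.conj U)).diag j = a j := by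
    have : E.symm (U (E (Pi.single j 1))) j = a j := by rw [h1, hU, h2]
    simpa [LinearEquiv.conj_apply] using this
  rw [h3]
  have h4 := S.coef d (j + 1) (a - Pi.single j (c ^ (j : ℕ))) ?_ j (Nat.lt_succ_self _)
  · simpa using h4
  have h5 := congrArg ψ hz
  rw [dv_apply] at h5
  simp only [map_add, map_sum, map_mul, map_pow] at h5
  obtain ⟨y, hy⟩ := hc
  have h6 : ψ (T t) = ψ t * (ψ (algebraMap A B c) + ψ t * y) := by linear_combination hy
  have h7 : ψ t ∣ (ψ (algebraMap A B c) + ψ t * y) ^ (j : ℕ) - ψ (algebraMap A B c) ^ (j : ℕ) :=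
    Dvd.dvd.trans (by simp) (sub_dvd_pow_sub_pow _ _ _)
  have h8 : ψ t ^ ((j : ℕ) + 1) ∣ ψ δ * ψ z :=
    ((pow_dvd_pow _ j.2).trans h.symm.dvd).mul_right _
  have h7' := mul_dvd_mul_left (ψ t ^ (j : ℕ)) h7
  rw [← pow_succ] at h7'
  have h9 := dvd_sub h7' h8
  convert h9 using 1
  simp only [Pi.sub_apply, map_sub, sub_mul, sum_sub_distrib]
  rw [eq_sub_of_add_eq h5, h6, mul_pow, sum_eq_single j (fun i _ hi => by simp [hi]) (by simp)]
  simp only [Pi.single_eq_same, map_pow]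
  ring

omit [IsArtinianRing A] [IsDomain O] in
theorem ker_stable (S : Setup A ψ t) (U : B →ₐ[A] B) {b : B} (hb : ψ b = 0) : ψ (U b) = 0 := by
  have h1 := Submodule.mem_map_of_mem (f := U.toLinearMap) (S.mem_smul hb)
  rw [Submodule.map_smul''] at h1
  have h2 := Submodule.smul_mono le_rfl le_top h1
  rwa [Ideal.smul_top_eq_map, Submodule.restrictScalars_mem, ← S.ker] at h2

omit [IsArtinianRing A] [IsDomain O] in
theorem unit_O (S : Setup A ψ t) {y : O} (hy : ¬ ψ t ∣ y) : IsUnit y := by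
  obtain ⟨n, hn⟩ := S.pw y (fun h => hy (h ▸ dvd_zero _))
  rcases n with _ | n
  · exact associated_one_iff_isUnit.1 (by simpa using hn)
  · exact absurd ((dvd_pow_self _ n.succ_ne_zero).trans hn.symm.dvd) hy

omit [IsDomain O] in
theorem unit_B (S : Setup A ψ t) {b : B} (hb : IsUnit (ψ b)) : IsUnit b := by
  obtain ⟨y, hy⟩ := hb.exists_right_inv
  obtain ⟨c, rfl⟩ := S.surj y
  have h := (S.nilp (b := 1 - b * c) (by simp [hy])).isUnit_one_sub
  rw [sub_sub_cancel] at h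
  exact isUnit_of_mul_isUnit_left h

omit [IsDomain O] in
theorem unit_one_sub (S : Setup A ψ t) (w : B) : IsUnit (1 - t * w) := by
  refine S.unit_B (S.unit_O fun h => S.nu (isUnit_of_dvd_one ?_))
  rw [map_sub, map_mul, map_one] at h
  simpa using dvd_add h (dvd_mul_right (ψ t) (ψ w))

omit [IsArtinianRing A] [IsDomain O] in
theorem mem_of_dvd (S : Setup A ψ t) {a : A} (h : ψ t ∣ ψ (algebraMap A B a)) :
    a ∈ maximalIdeal A := by
  by_contra hu
  have hu' : IsUnit a := by simpa using hu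
  exact S.nu (isUnit_of_dvd_unit h ((hu'.map _).map _))

theorem sep (S : Setup A ψ t) (U : B →ₐ[A] B) (h : ψ (U t - t) = 0) (b : B) :
    ψ (U b - b) = 0 := by
  by_contra hne
  obtain ⟨n, hn⟩ := S.pw _ hne
  obtain ⟨⟨a, z⟩, rfl⟩ := S.dv_surj (δ := t ^ (n + 1)) (d := n + 1) (by simp) b
  rw [map_sub, sub_eq_zero] at h
  have h1 : ψ t ^ (n + 1) ∣ ψ t ^ n := by
    refine Dvd.dvd.trans ⟨ψ (U z) - ψ z, ?_⟩ hn.dvd
    rw [dv_apply]
    simp only [map_add, map_sub, map_sum, map_mul, map_pow, AlgHom.commutes, h]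
    ring
  rw [pow_dvd_pow_iff S.ne S.nu] at h1
  omega

theorem dvd_sub_one (S : Setup A ψ t) (U : B →ₐ[A] B) (h1 : ψ (U t - t) ≠ 0)
    (h2 : ψ t ∣ ψ (U t)) (b : B) : U t - t ∣ U b - b := by
  obtain ⟨b', hb'⟩ := S.expand (fun _ : Unit => U) (fun _ => h1) (fun _ => h2) b
  have := dvd_add ((dvd_pow_self _ two_ne_zero).trans (hb' ())) (dvd_mul_left (U t - t) b')
  rwa [sub_add_cancel] at this

/-- the trace obstruction -/
theorem trace_kill [Module.Flat A B] (S : Setup A ψ t) (U : B →ₐ[A] B) {ε : B} {d : ℕ}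
    (hd : Associated (ψ ε) (ψ t ^ d)) (hst : ε ∣ U ε) (c : A)
    (hc : ψ t ^ 2 ∣ ψ (U t) - ψ (algebraMap A B c) * ψ t)
    (hu : IsUnit (∑ j ∈ range d, c ^ j)) (p : ℕ) (hp : (p : B) ∈ Ideal.span {ε, U t - t}) :
    (p : A) = 0 := by
  obtain ⟨α, β, hαβ⟩ := Ideal.mem_span_pair.1 hp
  set I : Ideal B := Ideal.span {ε} with hI
  have h3 : I ≤ I.comap U := by
    rw [hI, Ideal.span_le, Set.singleton_subset_iff]
    exact Ideal.mem_span_singleton.2 hst
  let V : (B ⧸ I) →ₐ[A] (B ⧸ I) := Ideal.quotientMapₐ I U h3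
  have hV : ∀ b, V (Ideal.Quotient.mk I b) = Ideal.Quotient.mk I (U b) := fun b => rfl
  have h4 := S.trace_mod hd U V.toLinearMap hV c hc
  have h5 : IsUnit (LinearMap.trace A _ V.toLinearMap) := by
    by_contra hnu
    have := sub_mem ((mem_maximalIdeal _).2 hnu) h4
    rw [sub_sub_cancel] at this
    exact this hu
  let m : (B ⧸ I) → Module.End A (B ⧸ I) := fun u => LinearMap.mulLeft A u
  have h6 : (p : A) • V.toLinearMap =
      (m (Ideal.Quotient.mk I β) * V.toLinearMap) * m (Ideal.Quotient.mk I t) -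
        m (Ideal.Quotient.mk I t) * (m (Ideal.Quotient.mk I β) * V.toLinearMap) := by
    refine LinearMap.ext fun q => ?_
    have e1 : (p : B ⧸ I) = Ideal.Quotient.mk I β * (V (Ideal.Quotient.mk I t) -
        Ideal.Quotient.mk I t) := by
      rw [hV, ← map_sub, ← map_mul, ← map_natCast (Ideal.Quotient.mk I), Ideal.Quotient.eq, ← hαβ,
        add_sub_cancel_right]
      exact I.mul_mem_left _ (Ideal.subset_span rfl)
    rw [LinearMap.smul_apply, Algebra.smul_def, map_natCast, e1]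
    simp only [m, LinearMap.sub_apply, Module.End.mul_apply,
      LinearMap.mulLeft_apply, AlgHom.toLinearMap_apply, map_mul]
    ring
  have h7 := congrArg (LinearMap.trace A _) h6
  rw [map_sub, LinearMap.trace_mul_comm, sub_self, map_smul, smul_eq_mul] at h7
  exact (h5.mul_left_eq_zero).1 h7

end Setup

end Pool.Agent.MP_deef5c_ag
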