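import Pool.Agent.MP_deef5c_ag.Grp
import Pool.Agent.MP_deef5c_ag.Div

/-! The fixed schemes of two generators of a non-cyclic group meet only in characteristic `p`, and
the trace obstruction. -/

open Finset IsLocalRing

namespace Pool.Agent.MP_deef5c_ag

variable {A B O : Type*} [CommRing A] [IsLocalRing A] [IsArtinianRing A] [CommRing B] [Algebra A B]
  [CommRing O] [IsDomain O] {H : Type*} [Group H]

/-- a right action of `H` on the deformation, faithful on `O` modulo its kernel -/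
structure Act (ψ : B →+* O) (t : B) (T : H → B →ₐ[A] B) : Prop where
  one : ∀ b, T 1 b = b
  mul : ∀ g h b, T (g * h) b = T h (T g b)
  dich : ∀ g, ψ (T g t - t) ≠ 0 ∨ ∀ b, T g b = b
  dvd : ∀ g, ψ t ∣ ψ (T g t)

namespace Act

variable {ψ : B →+* O} {t : B} {T : H → B →ₐ[A] B}

/-- elements acting trivially modulo `J` -/
def fixSub (h : Act ψ t T) (J : Ideal B) : Subgroup H where
  carrier := {g | ∀ b, T g b - b ∈ J}
  one_mem' := fun b => by simp [h.one]
  mul_mem' := fun {g g'} hg hg' b => by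
    have := add_mem (hg' (T g b)) (hg b)
    rwa [sub_add_sub_cancel, ← h.mul] at this
  inv_mem' := fun {g} hg b => by
    have := neg_mem (hg (T g⁻¹ b))
    rwa [← h.mul, inv_mul_cancel, h.one, neg_sub] at this

theorem expand [Finite H] (S : Setup A ψ t) (h : Act ψ t T) (b : B) :
    ∃ b' : B, ∀ g, ψ (T g t - t) ≠ 0 → (T g t - t) ^ 2 ∣ T g b - b - b' * (T g t - t) := by
  obtain ⟨b', hb'⟩ := S.expand (fun g : {g : H // ψ (T g t - t) ≠ 0} => T g) (fun g => g.2)
    (fun g => h.dvd g) b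
  exact ⟨b', fun g hg => hb' ⟨g, hg⟩⟩

theorem dvd_sub (S : Setup A ψ t) (h : Act ψ t T) (g : H) (b : B) :
    T g t - t ∣ T g b - b := by
  rcases h.dich g with hg | hg
  · exact S.dvd_sub_one _ hg (h.dvd g) b
  · simp [hg]

theorem mem_fixSub (S : Setup A ψ t) (h : Act ψ t T) {J : Ideal B} {g : H}
    (hg : T g t - t ∈ J) : g ∈ h.fixSub J := fun b => J.mem_of_dvd (h.dvd_sub S g b) hg

/-- the derivative character on the common fixed scheme -/
theorem exists_char [Finite H] [Module.Flat A B] (S : Setup A ψ t) (h : Act ψ t T)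
    (J : Ideal B) (hJ : h.fixSub J = ⊤) {g0 : H} (hg0 : ψ (T g0 t - t) ≠ 0) :
    ∃ L : H →* B ⧸ J, ∀ g, ψ (T g t - t) ≠ 0 → ∀ n : ℕ, T (g ^ n) t = t →
      ∑ j ∈ range n, L (g ^ j) = 0 := by
  have htriv : ∀ g b, T g b - b ∈ J := fun g => (hJ ▸ Subgroup.mem_top g : g ∈ h.fixSub J)
  choose lam hlam using fun g : H => h.expand S (T g t)
  have cancel : ∀ g, ψ (T g t - t) ≠ 0 → ∀ x y : B,
      (T g t - t) * x = (T g t - t) ^ 2 * y → x ∈ J := by
    intro g hg x y hxy
    have := S.nzd hg (b := x - (T g t - t) * y) (by linear_combination hxy)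
    rw [sub_eq_zero.1 this]
    exact J.mul_mem_right _ (htriv g t)
  let L : H →* B ⧸ J :=
    { toFun := fun g => Ideal.Quotient.mk J (lam g)
      map_one' := by
        obtain ⟨z, hz⟩ := hlam 1 g0 hg0
        rw [h.one] at hz
        rw [← map_one (Ideal.Quotient.mk J), Ideal.Quotient.eq]
        exact cancel g0 hg0 _ (-z) (by linear_combination -hz)
      map_mul' := fun h1 h2 => by
        have e0 : ∀ b, T h2 (T (h2 * g0 * h2⁻¹) b) = T g0 (T h2 b) := fun b => by
          rw [← h.mul, ← h.mul]; simp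
        have hg' : ψ (T (h2 * g0 * h2⁻¹) t - t) ≠ 0 := by
          refine (h.dich _).resolve_right fun e => hg0 ?_
          have := e0 (T h2⁻¹ t)
          rw [e, ← h.mul, inv_mul_cancel, h.one] at this
          rw [← this, sub_self, map_zero]
        obtain ⟨z, hz⟩ := hlam h1 _ hg'
        obtain ⟨z', hz'⟩ := hlam h2 g0 hg0
        obtain ⟨z'', hz''⟩ := hlam (h1 * h2) g0 hg0
        have e1 := congrArg (T h2) hz
        simp only [map_sub, map_mul, map_pow, e0, ← h.mul h1 h2] at e1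
        have e4 : T g0 (T h2 t) - T h2 t = (T g0 t - t) * (lam h2 + (T g0 t - t) * z') := by
          linear_combination hz'
        rw [e4] at e1
        have e5 := cancel g0 hg0 (lam (h1 * h2) - T h2 (lam h1) * lam h2)
          (T h2 (lam h1) * z' + (lam h2 + (T g0 t - t) * z') ^ 2 * T h2 z - z'')
          (by linear_combination e1 - hz'')
        rw [← map_mul, Ideal.Quotient.eq]
        have e6 := add_mem e5 (J.mul_mem_right (lam h2) (htriv h2 (lam h1)))
        convert e6 using 1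
        ring }
  refine ⟨L, fun g hg n hn => ?_⟩
  change ∑ j ∈ range n, Ideal.Quotient.mk J (lam (g ^ j)) = 0
  rw [← map_sum, Ideal.Quotient.eq_zero_iff_mem]
  choose z hz using fun j : ℕ => hlam (g ^ j) g hg
  have e1 : ∑ j ∈ range n, (T (g ^ (j + 1)) t - T (g ^ j) t) = 0 := by
    rw [sum_range_sub (fun j => T (g ^ j) t), hn, pow_zero, h.one, sub_self]
  refine cancel g hg _ (-∑ j ∈ range n, z j) ?_
  rw [mul_neg, mul_sum, mul_sum, eq_neg_iff_add_eq_zero, ← sum_add_distrib, ← e1]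
  refine sum_congr rfl fun j _ => ?_
  rw [pow_succ g, h.mul]
  linear_combination -hz j

theorem p_mem [Finite H] [Module.Flat A B] (S : Setup A ψ t) (h : Act ψ t T)
    (hne : ∀ g, g ≠ 1 → ψ (T g t - t) ≠ 0) (hc : ¬ IsCyclic H)
    (J : Ideal B) (hJ : h.fixSub J = ⊤) (p : ℕ)
    (hp : ∀ l : ℕ, l.Prime → l ≠ p → IsUnit (l : A)) : (p : B) ∈ J := by
  by_contra hpJ
  obtain ⟨g0, hg0⟩ : ∃ g : H, g ≠ 1 := by
    by_contra hh
    push Not at hh
    have : Subsingleton H := ⟨fun a b => by rw [hh a, hh b]⟩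
    exact hc inferInstance
  obtain ⟨L, hL⟩ := h.exists_char S J hJ (hne g0 hg0)
  refine hc (cyclic_of_char_sums L (fun g hg n hn => hL g (hne g hg) n (by rw [hn, h.one]))
    fun l hl hl0 => ?_)
  have hl1 : (l : B) ∈ J := by
    rwa [← map_natCast (Ideal.Quotient.mk J), Ideal.Quotient.eq_zero_iff_mem] at hl0
  by_cases hlp : l = p
  · exact hpJ (hlp ▸ hl1)
  · have hu := (hp l hl hlp).map (algebraMap A B)
    rw [map_natCast] at hu
    exact hpJ (J.eq_top_of_isUnit_mem hl1 hu ▸ Submodule.mem_top)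

theorem main [Finite H] [Module.Flat A B] (S : Setup A ψ t) (h : Act ψ t T)
    (hne : ∀ g, g ≠ 1 → ψ (T g t - t) ≠ 0) (hc : ¬ IsCyclic H)
    (σ γ : H) (hgen : Subgroup.closure {σ, γ} = ⊤) (hn : γ⁻¹ * σ * γ ∈ Subgroup.zpowers σ)
    (d : ℕ) (hd : Associated (ψ (T σ t - t)) (ψ t ^ d)) (c : A)
    (hcγ : ψ t ^ 2 ∣ ψ (T γ t) - ψ (algebraMap A B c) * ψ t)
    (hu : IsUnit (∑ j ∈ range d, c ^ j)) (p : ℕ)
    (hp : ∀ l : ℕ, l.Prime → l ≠ p → IsUnit (l : A)) : (p : A) = 0 := by
  have h1 := h.p_mem S hne hc (Ideal.span {T σ t - t, T γ t - t}) (by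
    rw [eq_top_iff, ← hgen, Subgroup.closure_le]
    rintro g (rfl | rfl)
    · exact h.mem_fixSub S (Ideal.subset_span (by simp))
    · exact h.mem_fixSub S (Ideal.subset_span (by simp))) p hp
  have h2 : Subgroup.zpowers σ ≤ h.fixSub (Ideal.span {T σ t - t}) := by
    rw [Subgroup.zpowers_le]
    exact h.mem_fixSub S (Ideal.subset_span rfl)
  refine S.trace_kill (T γ) hd ?_ c hcγ hu p h1
  have := h2 hn (T γ t)
  rw [← h.mul, ← mul_assoc, ← mul_assoc, mul_inv_cancel, one_mul, h.mul] at this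
  simpa [Ideal.mem_span_singleton] using this

end Act

end Pool.Agent.MP_deef5c_ag
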