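import Mathlib

open CategoryTheory AlgebraicGeometry

universe u

namespace Pool.Agent.MP_deef5c_ag

/-- The ring endomorphism of the local ring `O_{X,x}` induced by a morphism `e : X ⟶ X` fixing the
point `x` (the stalk map `O_{X,e x} ⟶ O_{X,x}` of `e`, read through `e x = x`). -/
noncomputable def locMap {X : Scheme.{u}} (e : X ⟶ X) (x : X) (h : e x = x) :
    X.presheaf.stalk x ⟶ X.presheaf.stalk x :=
  X.presheaf.stalkSpecializes (specializes_of_eq h) ≫ e.stalkMap x

/-- `(X, ρ)` lifts along `π : A → k`: there are a smooth `A`-scheme `X'`, an identification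
`ι` of `X` with `X' ×_A k`, and an action `ρ'` of `G` on `X'` over `A` that reduces to `ρ`. -/
def LiftsTo {k : Type u} [Field k] {X : Scheme.{u}} (f : X ⟶ Spec (.of k)) {G : Type*} [Group G]
    (ρ : G →* Aut X) {A : Type u} [CommRing A] (π : A →+* k) : Prop :=
  ∃ (X' : Scheme.{u}) (f' : X' ⟶ Spec (.of A)) (ι : X ⟶ X') (ρ' : G →* Aut X'),
    Smooth f' ∧ IsPullback ι f f' (Spec.map (CommRingCat.ofHom π)) ∧
      (∀ g, (ρ' g).hom ≫ f' = f') ∧ ∀ g, ι ≫ (ρ' g).hom = (ρ g).hom ≫ ι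

end Pool.Agent.MP_deef5c_ag
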