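import Pool.Agent.MP_deef5c_ag.Glue

/-! The local ring of a smooth curve at a rational point has a principal maximal ideal. -/

open CategoryTheory AlgebraicGeometry IsLocalRing

universe u

namespace Pool.Agent.MP_deef5c_ag

theorem principal_of_smooth {R S O : Type*} [CommRing R] [CommRing S] [CommRing O] [Algebra R S]
    [Algebra.IsStandardSmoothOfRelativeDimension 1 R S] [IsLocalRing O] [IsNoetherianRing O]
    [Algebra S O] (M : Submonoid S) [IsLocalization M O] (e : O →+* O)
    (h1 : ∀ r : R, e (algebraMap S O (algebraMap R S r)) = algebraMap S O (algebraMap R S r))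
    (h2 : ∀ y, y - e y ∈ maximalIdeal O) (h3 : ∀ y ∈ maximalIdeal O, e y = 0) :
    (maximalIdeal O).IsPrincipal := by
  have : Nontrivial S := (algebraMap S O).domain_nontrivial
  let _ : Algebra R O := ((algebraMap S O).comp (algebraMap R S)).toAlgebra
  have : IsScalarTower R S O := IsScalarTower.of_algebraMap_eq fun _ => rfl
  have := Algebra.IsStandardSmoothOfRelativeDimension.isStandardSmooth 1 (R := R) (S := S)
  obtain ⟨ω, hω⟩ := rank_le_one_iff.1
    (Algebra.IsStandardSmoothOfRelativeDimension.rank_kaehlerDifferential (R := R) (S := S) 1).le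
  let D0 : S →ₗ[R] (maximalIdeal O).Cotangent :=
    { toFun := fun s => (maximalIdeal O).toCotangent ⟨algebraMap S O s - e (algebraMap S O s), h2 _⟩
      map_add' := fun a b => by
        rw [← map_add]; congr 1; ext; simp only [map_add, Submodule.coe_add]; ring
      map_smul' := fun r a => by
        rw [RingHom.id_apply, ← algebraMap_smul O r ((maximalIdeal O).toCotangent _), ← map_smul]
        congr 1; ext
        simp only [Algebra.smul_def r a, map_mul, h1, SetLike.val_smul, smul_eq_mul]
        change _ = algebraMap S O (algebraMap R S r) * _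
        ring }
  let D : Derivation R S (maximalIdeal O).Cotangent := Derivation.mk' D0 fun a b => by
    change (maximalIdeal O).toCotangent _ = a • (maximalIdeal O).toCotangent _ +
      b • (maximalIdeal O).toCotangent _
    rw [← algebraMap_smul O a, ← algebraMap_smul O b, ← map_smul, ← map_smul, ← map_add,
      Ideal.toCotangent_eq, pow_two]
    have := neg_mem (Ideal.mul_mem_mul (h2 (algebraMap S O a)) (h2 (algebraMap S O b)))
    convert this using 1
    simp only [map_mul, Submodule.coe_add, SetLike.val_smul, smul_eq_mul]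
    ring
  obtain ⟨τ, hτ⟩ := (maximalIdeal O).toCotangent_surjective (D.liftKaehlerDifferential ω)
  refine ⟨τ, le_antisymm ?_ (by simp)⟩
  refine Submodule.le_of_le_smul_of_le_jacobson_bot (I := maximalIdeal O)
    (IsNoetherian.noetherian _) (IsLocalRing.maximalIdeal_le_jacobson _) fun y hy => ?_
  obtain ⟨⟨s, u⟩, hs⟩ := IsLocalization.surj M y
  obtain ⟨v, hv⟩ := IsLocalization.map_units O u
  obtain ⟨a, ha⟩ := hω (KaehlerDifferential.D R S s)
  have h4 := congrArg D.liftKaehlerDifferential ha
  rw [map_smul, Derivation.liftKaehlerDifferential_comp_D, ← hτ, ← algebraMap_smul O a,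
    ← map_smul] at h4
  have h5 := (Ideal.toCotangent_eq _).1 h4
  have h6 : e (algebraMap S O s) = 0 := h3 _ (hs ▸ Ideal.mul_mem_right _ _ hy)
  simp only [SetLike.val_smul, smul_eq_mul, h6, sub_zero] at h5
  have h7 : y = (↑v⁻¹ * algebraMap S O a) * τ + (-↑v⁻¹) * (algebraMap S O a * τ - algebraMap S O s) := by
    rw [← hs, ← hv]
    have := v.inv_mul
    linear_combination (-y) * this
  rw [h7]
  refine Submodule.add_mem_sup (Ideal.mul_mem_left _ _ (Ideal.subset_span rfl)) ?_
  rw [Ideal.smul_eq_mul, ← pow_two]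
  exact Ideal.mul_mem_left _ _ h5

variable {k : Type u} [Field k] {X : Scheme.{u}} {f : X ⟶ Spec (.of k)}

theorem exists_retr (s : Spec (.of k) ⟶ X) (hs : s ≫ f = 𝟙 _) {x : X}
    (hx : s (closedPoint k) = x) :
    ∃ ε : X.presheaf.stalk x ⟶ .of k, Spec.map ε ≫ X.fromSpecStalk x = s ∧
      (∀ y, y - (strMap f x).hom (ε.hom y) ∈ maximalIdeal _) ∧
      ∀ y ∈ maximalIdeal _, ε.hom y = 0 := by
  obtain ⟨ε, hl, hε⟩ := exists_stalk_hom (R := .of k) s hx
  have h1 : strMap f x ≫ ε = 𝟙 _ := by
    apply Spec.map_injective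
    rw [Spec.map_comp, spec_strMap, ← Category.assoc, hε, hs, Spec.map_id]
  refine ⟨ε, hε, fun y hy => ?_, fun y hy => ?_⟩
  · have h2 := hy.map ε.hom
    have h3 := congrArg (fun φ => φ.hom (ε.hom y)) h1
    simp only [CommRingCat.hom_comp, RingHom.comp_apply, CommRingCat.hom_id, RingHom.id_apply] at h3
    rw [map_sub, h3, sub_self] at h2
    exact not_isUnit_zero h2
  · by_contra h
    exact hy (IsLocalHom.map_nonunit _ (IsUnit.mk0 _ h))

theorem principal_stalk [SmoothOfRelativeDimension 1 f] (s : Spec (.of k) ⟶ X) (hs : s ≫ f = 𝟙 _)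
    {x : X} (hx : s (closedPoint k) = x) :
    IsNoetherianRing (X.presheaf.stalk x) ∧ (maximalIdeal (X.presheaf.stalk x)).IsPrincipal := by
  have : Smooth f := SmoothOfRelativeDimension.smooth 1 f
  have : IsLocallyNoetherian X := LocallyOfFiniteType.isLocallyNoetherian f
  have hN : IsNoetherianRing (X.presheaf.stalk x) := inferInstance
  refine ⟨hN, ?_⟩
  obtain ⟨ε, hε, h2, h3⟩ := exists_retr s hs hx
  obtain ⟨U, hU, V, hV, hxV, e, hsm⟩ :=
    SmoothOfRelativeDimension.exists_isStandardSmoothOfRelativeDimension (n := 1) (f := f) x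
  let _ := (f.appLE U V e).hom.toAlgebra
  have : Algebra.IsStandardSmoothOfRelativeDimension 1 Γ(Spec (.of k), U) Γ(X, V) := hsm
  let _ : Algebra Γ(X, V) (X.presheaf.stalk x) :=
    TopCat.Presheaf.algebra_section_stalk X.presheaf (⟨x, hxV⟩ : V)
  have := hV.isLocalization_stalk ⟨x, hxV⟩
  have h4 : f.stalkMap x ≫ ε ≫ strMap f x = f.stalkMap x := by
    apply stalk_ext
    rw [Spec.map_comp, Spec.map_comp, Category.assoc, Category.assoc,
      Scheme.SpecMap_stalkMap_fromSpecStalk, ← Category.assoc (Spec.map ε), hε, hs, spec_strMap]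
    simp
  refine principal_of_smooth (R := Γ(Spec (.of k), U)) (S := Γ(X, V))
    (hV.primeIdealOf ⟨x, hxV⟩).asIdeal.primeCompl (ε ≫ strMap f x).hom (fun r => ?_) h2
    (fun y hy => by simp [h3 y hy])
  have h5 : algebraMap Γ(X, V) (X.presheaf.stalk x) (algebraMap Γ(Spec (.of k), U) Γ(X, V) r) =
      (f.stalkMap x).hom (((Spec (.of k)).presheaf.germ U (f x) (e hxV)).hom r) := by
    rw [Scheme.Hom.germ_stalkMap_apply]
    change (X.presheaf.germ V x hxV).hom ((f.appLE U V e).hom r) = _
    rw [Scheme.Hom.appLE, CommRingCat.hom_comp, RingHom.comp_apply,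
      TopCat.Presheaf.germ_res_apply]
  rw [h5]
  exact congrArg (fun φ => φ.hom (((Spec (.of k)).presheaf.germ U (f x) (e hxV)).hom r)) h4

end Pool.Agent.MP_deef5c_ag
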