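import Pool.Agent.MP_deef5c_ag.Dvr

/-! Reduction of an equivariant lift of a curve to the local algebraic setting. -/

open CategoryTheory AlgebraicGeometry IsLocalRing

universe u

namespace Pool.Agent.MP_deef5c_ag

theorem fix_closure {X : Scheme.{u}} {G : Type*} [Group G] (ρ : G →* Aut X) (x : X) (s : Set G)
    (hs : ∀ g ∈ s, (ρ g).hom x = x) : ∀ g ∈ Subgroup.closure s, (ρ g).hom x = x := by
  intro g hg
  induction hg using Subgroup.closure_induction with
  | mem g hg => exact hs g hg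
  | one => rw [map_one]; rfl
  | mul g h _ _ ihg ihh =>
    rw [map_mul]
    change ((ρ h).hom ≫ (ρ g).hom) x = x
    rw [Scheme.Hom.comp_apply, ihh, ihg]
  | inv g _ ih =>
    have h1 : (ρ g).hom ≫ (ρ g⁻¹).hom = 𝟙 X := by
      rw [map_inv]; exact (ρ g).hom_inv_id
    have h2 := congrArg (fun φ : X ⟶ X => φ x) h1
    simp only [Scheme.Hom.comp_apply, ih] at h2
    simpa using h2

theorem reduce {k : Type u} [Field k] {X : Scheme.{u}} [IsIntegral X] {f : X ⟶ Spec (.of k)}
    [IsSeparated f] [SmoothOfRelativeDimension 1 f] {G : Type*} [Group G] {ρ : G →* Aut X}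
    (hρ : Function.Injective ρ) (hρk : ∀ g, (ρ g).hom ≫ f = f) {s : Spec (.of k) ⟶ X}
    (hs : s ≫ f = 𝟙 _) {x : X} (hx : s (closedPoint k) = x) (K : Subgroup G)
    (hK : ∀ g ∈ K, (ρ g).hom x = x) (g0 : K) (hg0 : g0 ≠ 1)
    {A : Type u} [CommRing A] [IsLocalRing A] [IsArtinianRing A] {π : A →+* k}
    (hπ : Function.Surjective π) {X' : Scheme.{u}} {f' : X' ⟶ Spec (.of A)} [Flat f'] {ι : X ⟶ X'}
    (hι : IsPullback ι f f' (Spec.map (CommRingCat.ofHom π))) {ρ' : G →* Aut X'}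
    (hρA : ∀ g, (ρ' g).hom ≫ f' = f') (hc : ∀ g, ι ≫ (ρ' g).hom = (ρ g).hom ≫ ι) :
    ∃ (B : Type u) (_ : CommRing B) (_ : Algebra A B) (_ : Module.Flat A B)
      (ψ : B →+* X.presheaf.stalk x) (t : B) (T : K → B →ₐ[A] B), Setup A ψ t ∧ Act ψ t T ∧
      (∀ g, g ≠ 1 → ψ (T g t - t) ≠ 0) ∧ maximalIdeal _ = Ideal.span {ψ t} ∧
      ∀ (g : K) b, ψ (T g b) = (locMap (ρ g).hom x (hK g g.2)).hom (ψ b) := by
  have hK' : ∀ g : K, (ρ' g).hom (ι x) = ι x := fun g => by
    rw [← Scheme.Hom.comp_apply, hc, Scheme.Hom.comp_apply, hK g g.2]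
  have hfaith : ∀ g : K, locMap (ρ g).hom x (hK g g.2) = 𝟙 _ → g = 1 := fun g hg => by
    have h1 := eq_id_of_locMap f _ (hρk g) x _ hg
    have h2 : ρ g = ρ 1 := by rw [map_one]; exact Iso.ext h1
    exact Subtype.ext (hρ h2)
  obtain ⟨hN, hP⟩ := principal_stalk s hs hx
  obtain ⟨ε, -, hε, -⟩ := exists_retr s hs hx
  have hnf : ¬ IsField (X.presheaf.stalk x) := fun hF => hg0 (hfaith g0 (by
    ext y
    have h1 := hε y
    rw [IsLocalRing.isField_iff_maximalIdeal_eq.1 hF, Ideal.mem_bot, sub_eq_zero] at h1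
    have h2 := congrArg (fun φ => φ.hom (ε.hom y)) (strMap_locMap f x _ (hK g0 g0.2) (hρk g0))
    simp only [CommRingCat.hom_comp, RingHom.comp_apply, ← h1] at h2
    simpa using h2))
  have hD : IsDiscreteValuationRing (X.presheaf.stalk x) :=
    ((IsDiscreteValuationRing.TFAE (X.presheaf.stalk x) hnf).out 0 4).2 hP
  have := closedImm hπ hι
  have hsurj : Function.Surjective (ι.stalkMap x).hom := ι.stalkMap_surjective x
  obtain ⟨ϖ, hϖ⟩ := IsDiscreteValuationRing.exists_irreducible (X.presheaf.stalk x)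
  obtain ⟨t, rfl⟩ := hsurj ϖ
  let _ : Algebra A (X'.presheaf.stalk (ι x)) := (strMap f' (ι x)).hom.toAlgebra
  have hfl : Module.Flat A (X'.presheaf.stalk (ι x)) := strMap_flat f' (ι x)
  let T : K → X'.presheaf.stalk (ι x) →ₐ[A] X'.presheaf.stalk (ι x) := fun g =>
    { (locMap (ρ' g).hom (ι x) (hK' g)).hom with
      commutes' := fun a => congrArg (fun φ => φ.hom a) (strMap_locMap f' (ι x) _ (hK' g) (hρA g)) }
  have hT : ∀ (g : K) b, (ι.stalkMap x).hom (T g b) =
      (locMap (ρ g).hom x (hK g g.2)).hom ((ι.stalkMap x).hom b) := fun g b =>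
    congrArg (fun φ => φ.hom b) (locMap_stalkMap ι _ _ x (hK g g.2) (hK' g) (hc g))
  have hmax := hϖ.maximalIdeal_eq
  have S : Setup A (ι.stalkMap x).hom t :=
    { surj := hsurj
      ker := ker_stalkMap hπ hι x
      ne := hϖ.ne_zero
      nu := hϖ.not_isUnit
      res := fun y => by
        obtain ⟨a, ha⟩ := hπ (ε.hom y)
        refine ⟨a, ?_⟩
        have h1 := congrArg (fun φ => φ.hom a) (strMap_stalkMap hι x)
        simp only [CommRingCat.hom_comp, RingHom.comp_apply, CommRingCat.hom_ofHom, ha] at h1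
        have h2 := hε y
        rw [hmax, Ideal.mem_span_singleton, ← h1] at h2
        exact h2
      pw := fun y hy => IsDiscreteValuationRing.associated_pow_irreducible hy hϖ }
  have hone : ∀ b, T 1 b = b := fun b =>
    congrArg (fun φ => φ.hom b) (locMap_id _ (ι x) (hK' 1) (by simp; rfl))
  have hmul : ∀ g h b, T (g * h) b = T h (T g b) := fun g h b =>
    congrArg (fun φ => φ.hom b) (locMap_comp _ _ _ (ι x) (hK' g) (hK' h) (hK' (g * h))
      (by rw [Subgroup.coe_mul, map_mul]; rfl))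
  have hne : ∀ g, g ≠ 1 → (ι.stalkMap x).hom (T g t - t) ≠ 0 := fun g hg h0 => hg (hfaith g (by
    ext y
    obtain ⟨b, rfl⟩ := hsurj y
    have h1 := S.sep (T g) h0 b
    rw [map_sub, hT, sub_eq_zero] at h1
    simpa using h1))
  refine ⟨X'.presheaf.stalk (ι x), inferInstance, inferInstance, hfl, (ι.stalkMap x).hom, t, T, S,
    ⟨hone, hmul, fun g => ?_, fun g => ?_⟩, hne, hmax, hT⟩
  · by_cases hg : g = 1
    · exact Or.inr (hg ▸ hone)
    · exact Or.inl (hne g hg)
  · by_contra hnd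
    have h1 := (S.unit_B (S.unit_O hnd)).map (T g⁻¹)
    rw [← hmul, mul_inv_cancel, hone] at h1
    exact S.nu (h1.map _)

/-- the ramification index read on a uniformiser -/
theorem assoc_of_span {A B O : Type*} [CommRing A] [IsLocalRing A] [IsArtinianRing A] [CommRing B]
    [Algebra A B] [CommRing O] [IsDomain O] {H : Type*} [Group H] {ψ : B →+* O} {t : B}
    {T : H → B →ₐ[A] B} (S : Setup A ψ t) (h : Act ψ t T) (g : H) (L : O → O)
    (hL : ∀ b, ψ (T g b) = L (ψ b)) {d : ℕ}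
    (hd : Ideal.span (Set.range fun y => L y - y) = Ideal.span {ψ t} ^ d) :
    Associated (ψ (T g t - t)) (ψ t ^ d) := by
  rw [← Ideal.span_singleton_eq_span_singleton, ← Ideal.span_singleton_pow, ← hd]
  refine le_antisymm (Ideal.span_mono ?_) (Ideal.span_le.2 ?_)
  · rintro _ rfl
    exact ⟨ψ t, by simp [hL]⟩
  · rintro _ ⟨y, rfl⟩
    obtain ⟨b, rfl⟩ := S.surj y
    have := map_dvd ψ (h.dvd_sub S g b)
    rw [map_sub ψ (T g b), hL] at this
    exact Ideal.mem_span_singleton.2 this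

theorem unit_of_prime_ne {k A : Type*} [Field k] [CommRing A] [IsLocalRing A] {π : A →+* k}
    (hπ : Function.Surjective π) (p : ℕ) [CharP k p] [Fact p.Prime] (l : ℕ) (hl : l.Prime)
    (hlp : l ≠ p) : IsUnit (l : A) := by
  by_contra hu
  have h1 : (l : A) ∈ RingHom.ker π := by
    rw [IsLocalRing.ker_eq_maximalIdeal π hπ]; exact hu
  rw [RingHom.mem_ker, map_natCast, CharP.cast_eq_zero_iff k p] at h1
  exact hlp ((Nat.prime_dvd_prime_iff_eq Fact.out hl).1 h1).symm

theorem ringChar_of_eq_zero {A : Type*} [CommRing A] [Nontrivial A] (p : ℕ) [Fact p.Prime]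
    (h : (p : A) = 0) : ringChar A = p :=
  have := (CharP.charP_iff_prime_eq_zero (R := A) Fact.out).2 h
  ringChar.eq A p

end Pool.Agent.MP_deef5c_ag
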