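import Pool.Agent.MP_deef5c_ag.Red

/-! The fixed section of a tame element and the displacement homomorphism. -/

open Finset IsLocalRing

namespace Pool.Agent.MP_deef5c_ag

variable {A B O : Type*} [CommRing A] [IsLocalRing A] [IsArtinianRing A] [CommRing B] [Algebra A B]
  [CommRing O] [IsDomain O] {ψ : B →+* O} {t : B} {H : Type*} [Group H] {T : H → B →ₐ[A] B}

theorem Act.sub_sq (S : Setup A ψ t) (h : Act ψ t T) (g : H) {b : B} (hb : ψ t ^ 2 ∣ ψ b) :
    ∃ w, T g b - b = (T g t - t) * w ∧ ψ t ∣ ψ w := by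
  obtain ⟨u, hu⟩ := hb
  obtain ⟨u, rfl⟩ := S.surj u
  have h1 := S.mem_smul (b := b - t ^ 2 * u) (by simp [hu])
  have h2 : ∀ n ∈ maximalIdeal A • (⊤ : Submodule A B),
      ∃ w, T g n - n = (T g t - t) * w ∧ ψ w = 0 := fun n hn => by
    refine Submodule.smul_induction_on hn (fun a ha m _ => ?_) ?_
    · obtain ⟨w, hw⟩ := h.dvd_sub S g m
      refine ⟨algebraMap A B a * w, ?_, by rw [map_mul, S.zero_of_mem ha, zero_mul]⟩
      rw [Algebra.smul_def, map_mul, AlgHom.commutes]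
      linear_combination algebraMap A B a * hw
    · rintro x y ⟨w, hw, hw'⟩ ⟨v, hv, hv'⟩
      exact ⟨w + v, by rw [map_add]; linear_combination hw + hv, by rw [map_add, hw', hv', add_zero]⟩
  obtain ⟨w, hw, hw'⟩ := h2 _ h1
  obtain ⟨v, hv⟩ := h.dvd_sub S g u
  refine ⟨w + (t * (t * v) + (T g t + t) * T g u), ?_, ?_⟩
  · simp only [map_sub, map_mul, map_pow] at hw
    linear_combination hw + t ^ 2 * hv
  · simp only [map_add, map_mul, hw', zero_add]
    exact dvd_add (dvd_mul_right _ _) ((dvd_add (h.dvd g) dvd_rfl).mul_right _)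

theorem Act.main_wt [Finite H] [Module.Flat A B] (S : Setup A ψ t) (h : Act ψ t T)
    (hne : ∀ g, g ≠ 1 → ψ (T g t - t) ≠ 0) (hc : ¬ IsCyclic H) (P : Subgroup H) (γ : H)
    (hgen : Subgroup.closure (insert γ (P : Set H)) = ⊤)
    (hP : ∀ g ∈ P, ψ t ^ 2 ∣ ψ (T g t - t)) (c : A)
    (hcγ : ψ t ^ 2 ∣ ψ (T γ t) - ψ (algebraMap A B c) * ψ t) (hu : IsUnit (c - 1))
    (hφ : ∀ φ : P → ResidueField A, (∀ g g', φ (g * g') = φ g + φ g') →
      (∀ g g' : P, (g' : H) = γ * g * γ⁻¹ → φ g' = residue A c * φ g) → ∀ g, φ g = 0)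
    (p : ℕ) (hp : ∀ l : ℕ, l.Prime → l ≠ p → IsUnit (l : A)) : (p : A) = 0 := by
  set δ := T γ t - t with hδ
  have hd : Associated (ψ δ) (ψ t ^ 1) := by
    obtain ⟨z, hz⟩ := hcγ
    have e : ψ δ = ψ t * (ψ (algebraMap A B (c - 1)) + ψ t * z) := by
      simp only [hδ, map_sub, map_one]
      linear_combination hz
    rw [e, pow_one]
    refine associated_mul_unit_left _ _ (S.unit_O fun hh => ?_)
    exact S.mem_of_dvd ((dvd_add_left (dvd_mul_right _ _)).1 hh) hu
  have uniq : ∀ a : A, δ ∣ algebraMap A B a → a = 0 := by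
    rintro a ⟨z, hz⟩
    have : Setup.dv A t δ 1 (fun _ => a, -z) = Setup.dv A t δ 1 0 := by
      rw [Setup.dv_apply, map_zero]
      simp [hz]
    exact congrFun (congrArg Prod.fst (S.dv_inj hd this)) 0
  obtain ⟨ev, hev⟩ : ∃ ev : B → A, ∀ b, δ ∣ b - algebraMap A B (ev b) := by
    have : ∀ b, ∃ a : A, δ ∣ b - algebraMap A B a := fun b => by
      obtain ⟨⟨a, z⟩, rfl⟩ := S.dv_surj hd.dvd b
      exact ⟨a 0, z, by rw [Setup.dv_apply]; simp⟩
    exact ⟨_, fun b => (this b).choose_spec⟩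
  have evm : ∀ w, ψ t ∣ ψ w → ev w ∈ maximalIdeal A := fun w hw => by
    have h1 := ((pow_one (ψ t)) ▸ hd.symm.dvd).trans (map_dvd ψ (hev w))
    rw [map_sub] at h1
    exact S.mem_of_dvd ((dvd_sub_right hw).1 h1)
  let a : H → A := fun g => ev (T g t - t)
  have ha : ∀ g, δ ∣ T g t - t - algebraMap A B (a g) := fun g => hev _
  have hfix : ∀ b, δ ∣ T γ⁻¹ b - b := fun b => by
    have := h.dvd_sub S γ (T γ⁻¹ b)
    rwa [← h.mul, inv_mul_cancel, h.one, ← dvd_neg, neg_sub] at this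
  have hadd : ∀ g ∈ P, ∀ g', ∃ r ∈ maximalIdeal A, a (g * g') = a g + a g' + r * a g' := by
    intro g hg g'
    obtain ⟨w, hw, hw'⟩ := h.sub_sq S g' (hP g hg)
    refine ⟨ev w, evm w hw', sub_eq_zero.1 (uniq _ ?_)⟩
    have h1 := _root_.dvd_sub (dvd_add (dvd_add (ha g) (ha g')) (dvd_add ((ha g').mul_right w)
      ((hev w).mul_left (algebraMap A B (a g'))))) (ha (g * g'))
    convert h1 using 1
    simp only [map_sub, map_add, map_mul, h.mul] at hw ⊢
    linear_combination hw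
  have hcj : ∀ g, ∃ r ∈ maximalIdeal A, a (γ * g * γ⁻¹) = c * a g + r * a g := by
    intro g
    obtain ⟨w, hw, hw'⟩ := h.sub_sq S g (b := T γ t - algebraMap A B c * t) (by simpa using hcγ)
    refine ⟨ev w, evm w hw', sub_eq_zero.1 (uniq _ ?_)⟩
    have h1 := _root_.dvd_sub (dvd_add (dvd_add (dvd_add (hfix (T g (T γ t))) (dvd_refl δ))
      ((ha g).mul_left (algebraMap A B c))) (dvd_add ((ha g).mul_right w)
      ((hev w).mul_left (algebraMap A B (a g))))) (ha (γ * g * γ⁻¹))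
    convert h1 using 1
    simp only [map_sub, map_add, map_mul, h.mul, AlgHom.commutes, hδ] at hw ⊢
    linear_combination hw
  have hJ : ∀ g : P, a g = 0 := by
    by_contra hh
    push Not at hh
    obtain ⟨g0, hg0⟩ := hh
    let J : Ideal A := Ideal.span (Set.range fun g : P => a g)
    let b : P → J := fun g => ⟨a g, Ideal.subset_span ⟨g, rfl⟩⟩
    have : Nontrivial J := ⟨b g0, 0, fun e => hg0 (congrArg Subtype.val e)⟩
    obtain ⟨N, hN, -⟩ := (eq_top_or_exists_le_coatom (⊥ : Submodule A J)).resolve_left bot_ne_top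
    obtain ⟨I, hI, ⟨e⟩⟩ := isSimpleModule_iff_quot_maximal.1 (isSimpleModule_iff_isCoatom.2 hN)
    obtain rfl := eq_maximalIdeal hI
    let l : J →ₗ[A] ResidueField A := e.toLinearMap ∘ₗ N.mkQ
    have hl : ∀ (r : A) x, l (r • x) = residue A r * l x := fun r x => by
      rw [map_smul, Algebra.smul_def]; rfl
    have h0 := hφ (fun g => l (b g)) (fun g g' => by
      obtain ⟨r, hr, e1⟩ := hadd g g.2 g'
      rw [show b (g * g') = b g + b g' + r • b g' from Subtype.ext e1, map_add, map_add, hl,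
        (residue_eq_zero_iff r).2 hr, zero_mul, add_zero]) (fun g g' hg => by
      obtain ⟨r, hr, e1⟩ := hcj g
      rw [← hg] at e1
      rw [show b g' = c • b g + r • b g from Subtype.ext e1, map_add, hl, hl,
        (residue_eq_zero_iff r).2 hr, zero_mul, add_zero])
    refine hN.1 (eq_top_iff.2 ?_)
    rintro ⟨x, hx⟩ -
    induction hx using Submodule.span_induction with
    | mem x hx =>
      obtain ⟨g, rfl⟩ := hx
      exact (Submodule.Quotient.mk_eq_zero N).1 (e.injective ((h0 g).trans (map_zero e).symm))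
    | zero => exact N.zero_mem
    | add x y hx hy ihx ihy => exact N.add_mem ihx ihy
    | smul r x hx ih => exact N.smul_mem r ih
  have h1 := h.p_mem S hne hc (Ideal.span {δ}) (by
    rw [eq_top_iff, ← hgen, Subgroup.closure_le]
    rintro g (rfl | hg)
    · exact h.mem_fixSub S (Ideal.subset_span rfl)
    · refine h.mem_fixSub S (Ideal.mem_span_singleton.2 ?_)
      simpa [hJ ⟨g, hg⟩] using ha g) p hp
  exact uniq _ (by simpa [Ideal.mem_span_singleton] using h1)

end Pool.Agent.MP_deef5c_ag
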