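import Pool.Agent.MP_deef5c_ag.Defs
import Pool.Agent.MP_deef5c_ag.Alg

/-! Passing from a flat lift of a scheme to the local ring of the lift at a point. -/

open CategoryTheory AlgebraicGeometry IsLocalRing

universe u

namespace Pool.Agent.MP_deef5c_ag

@[reassoc]
theorem spec_locMap {X : Scheme.{u}} (e : X ⟶ X) (x : X) (h : e x = x) :
    Spec.map (locMap e x h) ≫ X.fromSpecStalk x = X.fromSpecStalk x ≫ e := by
  rw [locMap, Spec.map_comp, Category.assoc, Scheme.SpecMap_stalkSpecializes_fromSpecStalk,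
    Scheme.SpecMap_stalkMap_fromSpecStalk]

theorem stalk_ext {X : Scheme.{u}} {x : X} {R : CommRingCat.{u}} {a b : X.presheaf.stalk x ⟶ R}
    (h : Spec.map a ≫ X.fromSpecStalk x = Spec.map b ≫ X.fromSpecStalk x) : a = b :=
  Spec.map_injective ((cancel_mono _).1 h)

theorem exists_stalk_hom {X : Scheme.{u}} {R : CommRingCat.{u}} [IsLocalRing R] (g : Spec R ⟶ X)
    {x : X} (h : g (closedPoint R) = x) :
    ∃ θ : X.presheaf.stalk x ⟶ R, IsLocalHom θ.hom ∧ Spec.map θ ≫ X.fromSpecStalk x = g := by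
  subst h
  exact ⟨Scheme.stalkClosedPointTo g, inferInstance, Scheme.Spec_stalkClosedPointTo_fromSpecStalk g⟩

/-- structure map of a local ring -/
noncomputable def strMap {X : Scheme.{u}} {R : CommRingCat.{u}} (f : X ⟶ Spec R) (x : X) :
    R ⟶ X.presheaf.stalk x :=
  Spec.preimage (X.fromSpecStalk x ≫ f)

theorem spec_strMap {X : Scheme.{u}} {R : CommRingCat.{u}} (f : X ⟶ Spec R) (x : X) :
    Spec.map (strMap f x) = X.fromSpecStalk x ≫ f := Spec.map_preimage _

theorem strMap_eq {X : Scheme.{u}} {R : CommRingCat.{u}} (f : X ⟶ Spec R) (x : X) :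
    strMap f x = StructureSheaf.toStalk R (f x) ≫ f.stalkMap x := by
  apply Spec.map_injective
  rw [spec_strMap, Spec.map_comp, ← Scheme.SpecMap_stalkMap_fromSpecStalk, Spec.fromSpecStalk_eq']
  rfl

theorem strMap_flat {X : Scheme.{u}} {R : CommRingCat.{u}} (f : X ⟶ Spec R) [Flat f] (x : X) :
    (strMap f x).hom.Flat := by
  rw [strMap_eq, CommRingCat.hom_comp]
  refine RingHom.Flat.comp ?_ (Flat.stalkMap f x)
  have := IsLocalization.flat ((Spec.structureSheaf R).presheaf.stalk (f x)) (f x).asIdeal.primeCompl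
  exact RingHom.flat_algebraMap_iff.2 this

theorem strMap_locMap {X : Scheme.{u}} {R : CommRingCat.{u}} (f : X ⟶ Spec R) (x : X) (e : X ⟶ X)
    (h : e x = x) (he : e ≫ f = f) : strMap f x ≫ locMap e x h = strMap f x := by
  apply Spec.map_injective
  rw [Spec.map_comp, spec_strMap, spec_locMap_assoc, he]

theorem locMap_comp {X : Scheme.{u}} (e e' e'' : X ⟶ X) (x : X) (h : e x = x) (h' : e' x = x)
    (h'' : e'' x = x) (he : e'' = e' ≫ e) :
    locMap e'' x h'' = locMap e x h ≫ locMap e' x h' := by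
  apply stalk_ext
  rw [Spec.map_comp, Category.assoc, spec_locMap, spec_locMap, spec_locMap_assoc, he]

theorem locMap_id {X : Scheme.{u}} (e : X ⟶ X) (x : X) (h : e x = x) (he : e = 𝟙 X) :
    locMap e x h = 𝟙 _ := by
  apply stalk_ext
  rw [spec_locMap, he]
  simp

theorem locMap_stalkMap {X X' : Scheme.{u}} (ι : X ⟶ X') (e : X ⟶ X) (e' : X' ⟶ X') (x : X)
    (h : e x = x) (h' : e' (ι x) = ι x) (hc : ι ≫ e' = e ≫ ι) :
    locMap e' (ι x) h' ≫ ι.stalkMap x = ι.stalkMap x ≫ locMap e x h := by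
  apply stalk_ext
  simp only [Spec.map_comp, Category.assoc, spec_locMap, Scheme.SpecMap_stalkMap_fromSpecStalk,
    Scheme.SpecMap_stalkMap_fromSpecStalk_assoc, spec_locMap_assoc, hc]

theorem eq_id_of_locMap {X S : Scheme.{u}} [IsIntegral X] (f : X ⟶ S) [IsSeparated f] (e : X ⟶ X)
    (he : e ≫ f = f) (x : X) (h : e x = x) (hid : locMap e x h = 𝟙 _) : e = 𝟙 X := by
  have : IsDominant (X.fromSpecStalk x) := by
    constructor
    have h1 : genericPoint X ∈ Set.range (X.fromSpecStalk x) := by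
      rw [Scheme.range_fromSpecStalk]
      exact genericPoint_specializes x
    refine Dense.mono (Set.singleton_subset_iff.2 h1) ?_
    rw [dense_iff_closure_eq]
    exact genericPoint_spec X
  refine ext_of_isDominant_of_isSeparated f (by simp [he]) (X.fromSpecStalk x) ?_
  rw [← spec_locMap e x h, hid]
  simp

section

variable {k A : Type u} [Field k] [CommRing A] [IsLocalRing A] {π : A →+* k}
  {X X' : Scheme.{u}} {f : X ⟶ Spec (.of k)} {f' : X' ⟶ Spec (.of A)} {ι : X ⟶ X'}

omit [IsLocalRing A] in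
theorem strMap_stalkMap (hι : IsPullback ι f f' (Spec.map (CommRingCat.ofHom π))) (x : X) :
    strMap f' (ι x) ≫ ι.stalkMap x = CommRingCat.ofHom π ≫ strMap f x := by
  apply Spec.map_injective
  rw [Spec.map_comp, Spec.map_comp, spec_strMap, spec_strMap,
    Scheme.SpecMap_stalkMap_fromSpecStalk_assoc, hι.w, Category.assoc]

omit [IsLocalRing A] in
theorem closedImm (hπ : Function.Surjective π)
    (hι : IsPullback ι f f' (Spec.map (CommRingCat.ofHom π))) : IsClosedImmersion ι :=
  have : IsClosedImmersion (Spec.map (CommRingCat.ofHom π)) :=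
    IsClosedImmersion.spec_of_surjective _ hπ
  MorphismProperty.of_isPullback hι.flip this

theorem ker_stalkMap (hπ : Function.Surjective π)
    (hι : IsPullback ι f f' (Spec.map (CommRingCat.ofHom π))) (x : X) :
    RingHom.ker (ι.stalkMap x).hom = (maximalIdeal A).map (strMap f' (ι x)).hom := by
  have hk : RingHom.ker π = maximalIdeal A := IsLocalRing.ker_eq_maximalIdeal π hπ
  have hge : (maximalIdeal A).map (strMap f' (ι x)).hom ≤ RingHom.ker (ι.stalkMap x).hom := by
    rw [Ideal.map_le_iff_le_comap]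
    intro a ha
    have h1 := congrArg (fun φ => φ.hom a) (strMap_stalkMap hι x)
    have h2 : π a = 0 := by rw [← RingHom.mem_ker, hk]; exact ha
    simp only [CommRingCat.hom_comp, RingHom.comp_apply, CommRingCat.hom_ofHom, h2, map_zero] at h1
    exact h1
  refine le_antisymm ?_ hge
  set J := (maximalIdeal A).map (strMap f' (ι x)).hom with hJ
  have hJt : J ≠ ⊤ := fun h => RingHom.ker_ne_top _ (top_le_iff.1 (h ▸ hge))
  have : Nontrivial (X'.presheaf.stalk (ι x) ⧸ J) := Ideal.Quotient.nontrivial_iff.2 hJt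
  have : IsLocalRing (X'.presheaf.stalk (ι x) ⧸ J) :=
    IsLocalRing.of_surjective' (Ideal.Quotient.mk J) Ideal.Quotient.mk_surjective
  let q : X'.presheaf.stalk (ι x) ⟶ CommRingCat.of (X'.presheaf.stalk (ι x) ⧸ J) :=
    CommRingCat.ofHom (Ideal.Quotient.mk J)
  have : IsLocalHom q.hom := IsLocalHom.of_surjective _ Ideal.Quotient.mk_surjective
  let r0 : {g : A →+* (X'.presheaf.stalk (ι x) ⧸ J) // RingHom.ker π ≤ RingHom.ker g} :=
    ⟨q.hom.comp (strMap f' (ι x)).hom, fun a ha => by
      rw [hk] at ha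
      exact Ideal.Quotient.eq_zero_iff_mem.2 (Ideal.mem_map_of_mem _ ha)⟩
  let r : k →+* (X'.presheaf.stalk (ι x) ⧸ J) := π.liftOfSurjective hπ r0
  have hr : CommRingCat.ofHom π ≫ CommRingCat.ofHom r = strMap f' (ι x) ≫ q := by
    ext a
    exact π.liftOfRightInverse_comp_apply _ (Function.rightInverse_surjInv hπ) r0 a
  let g := hι.lift (Spec.map q ≫ X'.fromSpecStalk (ι x)) (Spec.map (CommRingCat.ofHom r)) (by
    rw [← Spec.map_comp, hr, Spec.map_comp, spec_strMap, Category.assoc])
  have hg : g ≫ ι = Spec.map q ≫ X'.fromSpecStalk (ι x) := hι.lift_fst _ _ _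
  have := closedImm hπ hι
  have hgx : g (closedPoint _) = x := by
    apply ι.isClosedEmbedding.injective
    rw [← Scheme.Hom.comp_apply, hg, Scheme.Hom.comp_apply, Spec_closedPoint,
      Scheme.fromSpecStalk_closedPoint]
  obtain ⟨θ, -, hθ⟩ := exists_stalk_hom g hgx
  have hq : ι.stalkMap x ≫ θ = q := by
    apply stalk_ext
    rw [Spec.map_comp, Category.assoc, Scheme.SpecMap_stalkMap_fromSpecStalk, ← Category.assoc, hθ,
      hg]
  intro b hb
  have h1 := congrArg (fun φ => φ.hom b) hq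
  simp only [CommRingCat.hom_comp, RingHom.comp_apply, RingHom.mem_ker.1 hb, map_zero] at h1
  exact Ideal.Quotient.eq_zero_iff_mem.1 h1.symm

end

end Pool.Agent.MP_deef5c_ag
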