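import Mathlib

/-! A finite group with a character whose sum along every non-trivial cyclic subgroup vanishes,
in a ring where no prime number vanishes, is cyclic. -/

open Finset

namespace Pool.Agent.MP_deef5c_ag

theorem cyclic_of_prime_count {H : Type*} [CommGroup H] [Fintype H] [DecidableEq H]
    (h : ∀ l : ℕ, l.Prime → #{a : H | a ^ l = 1} ≤ l) : IsCyclic H := by
  refine isCyclic_of_card_pow_eq_one_le fun n hn => ?_
  induction n using Nat.recOnMul with
  | zero => omega
  | one => simp [Finset.filter_eq']
  | prime l hl => exact h l hl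
  | mul a b iha ihb =>
    have ha : 0 < a := Nat.pos_of_mul_pos_right hn
    have hb : 0 < b := Nat.pos_of_mul_pos_left hn
    have key := Finset.card_le_mul_card_image_of_maps_to (f := fun x : H => x ^ a)
      (s := {x : H | x ^ (a * b) = 1}) (t := {y : H | y ^ b = 1})
      (fun x hx => by simpa [pow_mul] using hx) a (fun y _ => by
        by_cases hne : ({x ∈ ({x : H | x ^ (a * b) = 1} : Finset H) | x ^ a = y}).Nonempty
        · obtain ⟨x0, hx0⟩ := hne
          refine le_trans ?_ (iha ha)
          refine Finset.card_le_card_of_injOn (fun x => x * x0⁻¹) ?_ ?_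
          · intro x hx
            simp only [coe_filter, mem_filter, mem_univ, true_and, Set.mem_ofPred_eq] at hx hx0 ⊢
            rw [mul_pow, inv_pow, hx.2, hx0.2, mul_inv_cancel]
          · intro x _ x' _ hxx
            simpa using hxx
        · rw [Finset.not_nonempty_iff_eq_empty.1 hne]; simp)
    exact key.trans (Nat.mul_le_mul_left a (ihb hb))

theorem cyclic_of_char_sums {H R : Type*} [Group H] [Finite H] [CommRing R] (lam : H →* R)
    (hs : ∀ g : H, g ≠ 1 → ∀ n : ℕ, g ^ n = 1 → ∑ j ∈ range n, lam (g ^ j) = 0)
    (hp : ∀ l : ℕ, l.Prime → (l : R) ≠ 0) : IsCyclic H := by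
  classical
  have inj : Function.Injective lam := by
    rw [injective_iff_map_eq_one]
    intro g hg
    by_contra hne
    have ho : orderOf g ≠ 1 := by simpa using hne
    obtain ⟨l, hl, hd⟩ := Nat.exists_prime_and_dvd ho
    have h1 : orderOf (g ^ (orderOf g / l)) = l := orderOf_pow_orderOf_div (orderOf_pos g).ne' hd
    have h2 : g ^ (orderOf g / l) ≠ 1 := fun h0 => by
      rw [h0, orderOf_one] at h1; exact hl.one_lt.ne h1
    have h3 := hs _ h2 l (by
      have := pow_orderOf_eq_one (g ^ (orderOf g / l))
      rwa [h1] at this)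
    simp only [map_pow, hg, one_pow, sum_const, card_range, nsmul_eq_mul, mul_one] at h3
    exact hp l hl h3
  have comm : ∀ a b : H, a * b = b * a := fun a b => inj (by rw [map_mul, map_mul, mul_comm])
  let _ : CommGroup H := { (inferInstance : Group H) with mul_comm := comm }
  have := Fintype.ofFinite H
  refine cyclic_of_prime_count fun l hl => ?_
  have := Fact.mk hl
  by_cases hex : ∃ a : H, a ≠ 1 ∧ a ^ l = 1
  · obtain ⟨a, ha1, ha⟩ := hex
    have hoa : orderOf a = l := orderOf_eq_prime ha ha1
    have hsub : ({b : H | b ^ l = 1} : Finset H) ⊆ (range l).image (fun i => (a ^ i)⁻¹) := by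
      intro b hb
      rw [mem_filter] at hb
      by_contra hnb
      have h1 : ∀ i ∈ range l, ∑ j ∈ range l, lam ((a ^ i * b) ^ j) = 0 := by
        intro i hi
        refine hs _ (fun h0 => hnb (mem_image.2 ⟨i, hi, ?_⟩)) l ?_
        · exact (eq_inv_of_mul_eq_one_right h0).symm
        · rw [mul_pow, hb.2, ← pow_mul, mul_comm i, pow_mul, ha, one_pow, one_mul]
      have h2 : ∑ i ∈ range l, ∑ j ∈ range l, lam ((a ^ i * b) ^ j) = 0 := sum_eq_zero h1
      rw [sum_comm, sum_eq_single 0] at h2
      · simp only [pow_zero, map_one, sum_const, card_range, nsmul_eq_mul, mul_one] at h2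
        exact hp l hl h2
      · intro j hj hj0
        have h3 : a ^ j ≠ 1 := pow_ne_one_of_lt_orderOf hj0 (by rw [hoa]; exact mem_range.1 hj)
        have h4 := hs _ h3 l (by rw [← pow_mul, mul_comm, pow_mul, ha, one_pow])
        calc ∑ i ∈ range l, lam ((a ^ i * b) ^ j)
            = (∑ i ∈ range l, lam ((a ^ j) ^ i)) * lam (b ^ j) := by
              rw [sum_mul]
              refine sum_congr rfl fun i _ => ?_
              rw [← map_mul, mul_pow, ← pow_mul, ← pow_mul, mul_comm i j]
          _ = 0 := by rw [h4, zero_mul]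
      · intro h0
        exact absurd (mem_range.2 hl.pos) h0
    exact (card_le_card hsub).trans (card_image_le.trans (by simp))
  · push Not at hex
    have hsub : ({b : H | b ^ l = 1} : Finset H) ⊆ {1} := by
      intro b hb
      rw [mem_filter] at hb
      rw [mem_singleton]
      by_contra hb1
      exact hex b hb1 hb.2
    exact (card_le_card hsub).trans (by simpa using hl.one_lt.le)

end Pool.Agent.MP_deef5c_ag
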