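import Pool.Agent.MP_deef5c_ag.Alg

/-! The ring of invariants of an involution is again a flat deformation. -/

open Finset IsLocalRing

namespace Pool.Agent.MP_deef5c_ag

variable {A B O : Type*} [CommRing A] [IsLocalRing A] [IsArtinianRing A] [CommRing B] [Algebra A B]
  [CommRing O] [IsDomain O] [Module.Flat A B] {ψ : B →+* O} {t : B}

/-- an involution, non-trivial on `O` -/
structure Invol (ψ : B →+* O) (t : B) (U : B →ₐ[A] B) : Prop where
  sq : ∀ b, U (U b) = b
  ne : ψ (U t - t) ≠ 0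
  dvd : ψ t ∣ ψ (U t)

/-- invariants -/
abbrev Inv (U : B →ₐ[A] B) : Subalgebra A B := AlgHom.equalizer U (AlgHom.id A B)

/-- reduction of the invariants -/
abbrev invRed (ψ : B →+* O) (U : B →ₐ[A] B) : Inv U →+* (ψ.comp (Inv U).val.toRingHom).range :=
  (ψ.comp (Inv U).val.toRingHom).rangeRestrict

namespace Invol

variable {U : B →ₐ[A] B}

omit [IsLocalRing A] [IsArtinianRing A] [IsDomain O] [Module.Flat A B] in
/-- norm of the uniformiser -/
def nrm (h : Invol ψ t U) : Inv U := ⟨t * U t, by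
  simp [AlgHom.mem_equalizer, h.sq, mul_comm]⟩

omit [IsLocalRing A] [IsArtinianRing A] [IsDomain O] [Module.Flat A B] in
/-- trace of the uniformiser -/
def trc (h : Invol ψ t U) : Inv U := ⟨t + U t, by
  simp [AlgHom.mem_equalizer, h.sq, add_comm]⟩

theorem dec (S : Setup A ψ t) (h : Invol ψ t U) (b : B) :
    ∃ c0 c1 : Inv U, b = c0 + c1 * t := by
  obtain ⟨c, hc⟩ := S.dvd_sub_one U h.ne h.dvd b
  have h1 : U c = c := by
    have h2 := congrArg U hc
    simp only [map_sub, map_mul, h.sq] at h2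
    exact sub_eq_zero.1 (S.nzd h.ne (by linear_combination h2 + hc))
  refine ⟨⟨b - c * t, ?_⟩, ⟨c, h1⟩, by simp⟩
  change U _ = _
  simp only [map_sub, map_mul, h1, AlgHom.coe_id, id]
  linear_combination hc

theorem uniq (S : Setup A ψ t) (h : Invol ψ t U) {c0 c1 : Inv U} (e : (c0 : B) + c1 * t = 0) :
    c0 = 0 := by
  have h1 := congrArg U e
  have h0 : U c0 = c0 := c0.2
  have h2 : U c1 = c1 := c1.2
  rw [map_add, map_mul, h0, h2, map_zero] at h1
  have h3 : (c1 : B) = 0 := S.nzd h.ne (by linear_combination h1 - e)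
  rw [h3, zero_mul, add_zero] at e
  exact Subtype.ext e

theorem exists_proj (S : Setup A ψ t) (h : Invol ψ t U) :
    ∃ P : B →ₗ[A] Inv U, ∀ c0 c1 : Inv U, P (c0 + c1 * t) = c0 := by
  choose c0 c1 hc using h.dec S
  have key : ∀ (a b : Inv U), c0 (a + b * t) = a := fun a b => by
    have := h.uniq S (c0 := c0 (a + b * t) - a) (c1 := c1 (a + b * t) - b) (by
      push_cast
      linear_combination -hc (a + b * t))
    exact sub_eq_zero.1 this
  refine ⟨⟨⟨c0, fun x y => ?_⟩, fun r x => ?_⟩, key⟩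
  · rw [← key (c0 x + c0 y) (c1 x + c1 y)]
    congr 1
    push_cast
    linear_combination hc x + hc y
  · change c0 (r • x) = r • c0 x
    rw [← key (r • c0 x) (r • c1 x)]
    congr 1
    conv_lhs => rw [hc x]
    simp

theorem flat (S : Setup A ψ t) (h : Invol ψ t U) : Module.Flat A (Inv U) := by
  obtain ⟨P, hP⟩ := h.exists_proj S
  refine Module.Flat.of_retract (Inv U).val.toLinearMap P ?_
  ext c
  simpa using congrArg Subtype.val (hP c 0)

omit [IsArtinianRing A] [IsDomain O] [Module.Flat A B] in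
theorem proj_ker (S : Setup A ψ t) (P : B →ₗ[A] Inv U) {b : B} (hb : ψ b = 0) :
    P b ∈ (maximalIdeal A).map (algebraMap A (Inv U)) := by
  have h1 := Submodule.mem_map_of_mem (f := P) (S.mem_smul hb)
  rw [Submodule.map_smul''] at h1
  have h2 := Submodule.smul_mono le_rfl le_top h1
  rwa [Ideal.smul_top_eq_map, Submodule.restrictScalars_mem] at h2

omit [IsArtinianRing A] [IsDomain O] [Module.Flat A B] in
theorem red_zero (S : Setup A ψ t) {c : Inv U}
    (hc : c ∈ (maximalIdeal A).map (algebraMap A (Inv U))) : ψ c = 0 := by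
  have : (maximalIdeal A).map (algebraMap A (Inv U)) ≤
      RingHom.ker (ψ.comp (Inv U).val.toRingHom) := by
    rw [Ideal.map_le_iff_le_comap]
    intro a ha
    exact S.zero_of_mem ha
  exact this hc

theorem nrm_dvd (S : Setup A ψ t) (h : Invol ψ t U) {c : Inv U} (hc : ψ t ∣ ψ c) :
    ∃ c' : Inv U, ψ c = ψ h.nrm * ψ c' := by
  obtain ⟨P, hP⟩ := h.exists_proj S
  obtain ⟨y, hy⟩ := hc
  obtain ⟨b, rfl⟩ := S.surj y
  obtain ⟨c0, c1, rfl⟩ := h.dec S b
  have h1 := red_zero S (proj_ker S P (b := c - t * (c0 + c1 * t)) (by simp [hy]))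
  have h2 : (c : B) - t * (c0 + c1 * t) =
      (c + h.nrm * c1 : Inv U) + (-(c0 + h.trc * c1) : Inv U) * t := by
    simp only [nrm, trc]
    push_cast
    ring
  rw [h2, hP] at h1
  refine ⟨-c1, ?_⟩
  simp only [Subalgebra.coe_add, MulMemClass.coe_mul, map_add, map_mul] at h1
  simp only [NegMemClass.coe_neg, map_neg]
  linear_combination h1

omit [IsArtinianRing A] [Module.Flat A B] in
theorem nrm_assoc (S : Setup A ψ t) (h : Invol ψ t U) : Associated (ψ h.nrm) (ψ t ^ 2) := by
  change Associated (ψ (t * U t)) _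
  rw [map_mul, pow_two]
  refine Associated.mul_left _ (associated_of_dvd_dvd ?_ h.dvd)
  obtain ⟨y, hy⟩ := h.dvd
  obtain ⟨b, rfl⟩ := S.surj y
  have h1 := S.ker_stable U (b := U t - t * b) (by simp [hy])
  simp only [map_sub, map_mul, h.sq] at h1
  exact ⟨ψ (U b), by linear_combination h1⟩

omit [IsDomain O] [Module.Flat A B] in
theorem unit_inv (S : Setup A ψ t) {c : Inv U} (hc : IsUnit (ψ c)) : IsUnit c := by
  obtain ⟨b, hb⟩ := (S.unit_B hc).exists_right_inv
  have h1 := congrArg U hb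
  have h0 : U c = c := c.2
  rw [map_mul, h0, map_one] at h1
  have h2 : U b = b := by linear_combination b * h1 - U b * hb
  exact IsUnit.of_mul_eq_one (⟨b, h2⟩ : Inv U) (Subtype.ext hb)

theorem setup (S : Setup A ψ t) (h : Invol ψ t U) : Setup A (invRed ψ U) h.nrm := by
  have hdv : ∀ {c : Inv U}, ψ t ∣ ψ c → invRed ψ U h.nrm ∣ invRed ψ U c := fun hc => by
    obtain ⟨c', hc'⟩ := h.nrm_dvd S hc
    exact ⟨invRed ψ U c', Subtype.ext hc'⟩
  have ht : ψ t ∣ ψ h.nrm := (dvd_pow_self _ two_ne_zero).trans (h.nrm_assoc S).symm.dvd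
  refine ⟨RingHom.rangeRestrict_surjective _, ?_, fun h0 => ?_, fun hu => ?_, fun y => ?_,
    fun y hy => ?_⟩
  · obtain ⟨P, hP⟩ := h.exists_proj S
    ext c
    constructor
    · intro hc
      have := proj_ker S P (b := c) (congrArg Subtype.val hc)
      have h2 := hP c 0
      simp only [ZeroMemClass.coe_zero, zero_mul, add_zero] at h2
      rwa [h2] at this
    · exact fun hc => Subtype.ext (red_zero S hc)
  · exact (h.nrm_assoc S).ne_zero_iff.2 (pow_ne_zero _ S.ne) (congrArg Subtype.val h0)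
  · exact S.nu (isUnit_of_dvd_unit ht (hu.map (Subring.subtype _)))
  · obtain ⟨c, rfl⟩ := RingHom.rangeRestrict_surjective _ y
    obtain ⟨a, ha⟩ := S.res (ψ c)
    refine ⟨a, ?_⟩
    rw [← map_sub]
    exact hdv (by simpa using ha)
  · obtain ⟨c, rfl⟩ := RingHom.rangeRestrict_surjective _ y
    have hc : ψ c ≠ 0 := fun h0 => hy (Subtype.ext h0)
    obtain ⟨N, hN⟩ := S.pw _ hc
    have h1 : ¬ ψ t ^ (N + 1) ∣ ψ c := fun hd => by
      have := hd.trans hN.dvd
      rw [pow_dvd_pow_iff S.ne S.nu] at this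
      omega
    clear hN hc hy
    generalize N + 1 = n at h1
    induction n generalizing c with
    | zero => simp at h1
    | succ n ih =>
      by_cases hd : ψ t ∣ ψ c
      · obtain ⟨c', hc'⟩ := h.nrm_dvd S hd
        obtain ⟨m, hm⟩ := ih c' fun h2 => h1 (by
          rw [hc', pow_succ']; exact mul_dvd_mul ht h2)
        refine ⟨m + 1, ?_⟩
        have : invRed ψ U c = invRed ψ U h.nrm * invRed ψ U c' := Subtype.ext hc'
        rw [pow_succ']
        exact this ▸ Associated.mul_left _ hm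
      · refine ⟨0, ?_⟩
        rw [pow_zero, associated_one_iff_isUnit]
        exact (unit_inv S (S.unit_O hd)).map (invRed ψ U)

theorem dvd_inv (S : Setup A ψ t) {e c : Inv U} (he : ψ e ≠ 0) (hd : (e : B) ∣ c) : e ∣ c := by
  obtain ⟨b, hb⟩ := hd
  have h1 := congrArg U hb
  have h0 : U c = c := c.2
  have h2 : U e = e := e.2
  rw [map_mul, h0, h2] at h1
  have h3 : U b = b := sub_eq_zero.1 (S.nzd he (by linear_combination hb - h1))
  exact ⟨⟨b, h3⟩, Subtype.ext hb⟩

end Invol

/-- restriction of a commuting endomorphism to the invariants -/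
def restr (U V : B →ₐ[A] B) (h : ∀ b, U (V b) = V (U b)) : Inv U →ₐ[A] Inv U :=
  (V.comp (Inv U).val).codRestrict _ fun c => by
    have h0 : U c = c := c.2
    change U (V c) = V c
    rw [h, h0]

theorem Invol.restr_dvd (S : Setup A ψ t) {U V : B →ₐ[A] B} (h : Invol ψ t U)
    (hc : ∀ b, U (V b) = V (U b)) (hV : ψ t ∣ ψ (V t)) :
    invRed ψ U h.nrm ∣ invRed ψ U (restr U V hc h.nrm) := by
  obtain ⟨c', hc'⟩ := h.nrm_dvd S (c := restr U V hc h.nrm) (by
    change ψ t ∣ ψ (V (t * U t))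
    rw [map_mul, map_mul]
    exact hV.mul_right _)
  exact ⟨invRed ψ U c', Subtype.ext hc'⟩

theorem Invol.restr_ne (S : Setup A ψ t) {U V : B →ₐ[A] B} (h : Invol ψ t U)
    (hc : ∀ b, U (V b) = V (U b)) (h1 : ψ (V t - t) ≠ 0) (h2 : ψ (V (U t) - t) ≠ 0) :
    invRed ψ U (restr U V hc h.nrm - h.nrm) ≠ 0 := by
  intro h0
  have := h.flat S
  have h3 : ψ (V (t + U t) - (t + U t)) = 0 :=
    congrArg Subtype.val ((h.setup S).sep _ h0 h.trc)
  have h4 : ψ (V (t * U t) - t * U t) = 0 := congrArg Subtype.val h0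
  have h5 : ψ (V t - U t) ≠ 0 := fun h6 => h2 (by
    have := S.ker_stable U h6
    rwa [map_sub, h.sq, hc] at this)
  refine mul_ne_zero h1 h5 ?_
  simp only [map_sub, map_add, map_mul] at h3 h4 ⊢
  linear_combination ψ (V t) * h3 - h4

end Pool.Agent.MP_deef5c_ag
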