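import Pool.Agent.MP_deef5c_ag.Red

open CategoryTheory AlgebraicGeometry IsLocalRing Pool.Agent.MP_deef5c_ag

universe u v

namespace Pool.Agent.MP_deef5c_ag.TraceRes

/-- Let `σ, γ` fix a rational point `x` of a smooth curve, generate a non-cyclic group, with `γ`
normalising `⟨σ⟩`.  Let `d = i(σ)` and let `γ` act on `m / m ^ 2` by `c`.  If
`1 + c + ⋯ + c ^ (d - 1)` is non-zero in the residue field then every local Artinian ring to which
the action lifts has characteristic `p`. -/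
theorem result (p : ℕ) [Fact p.Prime] (k : Type u) [Field k] [CharP k p]
    (X : Scheme.{u}) [IsIntegral X] (f : X ⟶ Spec (.of k)) [IsSeparated f]
    [SmoothOfRelativeDimension 1 f]
    (G : Type v) [Group G] [Finite G] (ρ : G →* Aut X) (hρ : Function.Injective ρ)
    (hρk : ∀ g, (ρ g).hom ≫ f = f)
    (x : X) (s : Spec (.of k) ⟶ X) (hs : s ≫ f = 𝟙 _) (hx : s (closedPoint k) = x)
    (σ γ : G) (hσ : (ρ σ).hom x = x) (hγ : (ρ γ).hom x = x)
    (hn : γ ∈ Subgroup.normalizer (Subgroup.zpowers σ : Set G))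
    (hc : ¬ IsCyclic (Subgroup.closure ({σ, γ} : Set G)))
    (d : ℕ) (hd : Ideal.span (Set.range fun y => (locMap (ρ σ).hom x hσ).hom y - y) =
      maximalIdeal (X.presheaf.stalk x) ^ d)
    (c : X.presheaf.stalk x) (hcγ : ∀ y ∈ maximalIdeal (X.presheaf.stalk x),
      (locMap (ρ γ).hom x hγ).hom y - c * y ∈ maximalIdeal (X.presheaf.stalk x) ^ 2)
    (hu : ∑ j ∈ Finset.range d, c ^ j ∉ maximalIdeal (X.presheaf.stalk x))
    (A : Type u) [CommRing A] [IsLocalRing A] [IsArtinianRing A] (π : A →+* k)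
    (hπ : Function.Surjective π) (hA : LiftsTo f ρ π) : ringChar A = p := by
  obtain ⟨X', f', ι, ρ', hsm, hι, hρA, hred⟩ := hA
  set K : Subgroup G := Subgroup.closure {σ, γ} with hKdef
  have hK : ∀ g ∈ K, (ρ g).hom x = x := fix_closure ρ x _ (by rintro g (rfl | rfl) <;> assumption)
  let σ0 : K := ⟨σ, Subgroup.subset_closure (by simp)⟩
  let γ0 : K := ⟨γ, Subgroup.subset_closure (by simp)⟩
  have hgen : Subgroup.closure ({σ0, γ0} : Set K) = ⊤ := by
    rw [← Subgroup.closure_closure_coe_preimage (k := ({σ, γ} : Set G))]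
    congr 1
    ext g
    simp [σ0, γ0, Subtype.ext_iff]
  obtain ⟨g0, hg0⟩ : ∃ g : K, g ≠ 1 := by
    by_contra hh
    push Not at hh
    have : Subsingleton K := ⟨fun a b => by rw [hh a, hh b]⟩
    exact hc inferInstance
  obtain ⟨B, _, _, _, ψ, t, T, S, h, hne, hmax, hT⟩ :=
    reduce hρ hρk hs hx K hK g0 hg0 hπ hι hρA hred
  obtain ⟨a, ha⟩ := S.res c
  rw [hmax] at hd hcγ hu
  refine ringChar_of_eq_zero p (h.main S hne hc σ0 γ0 hgen ?_ d
    (assoc_of_span S h σ0 _ (hT σ0) hd) a ?_ ?_ p (unit_of_prime_ne hπ p))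
  · have h1 := (Subgroup.mem_normalizer_iff''.1 hn σ).1 (Subgroup.mem_zpowers σ)
    obtain ⟨n, hn'⟩ := Subgroup.mem_zpowers_iff.1 h1
    exact Subgroup.mem_zpowers_iff.2 ⟨n, Subtype.ext (by simpa [σ0, γ0] using hn')⟩
  · have h1 := hcγ (ψ t) (Ideal.subset_span rfl)
    rw [Ideal.span_singleton_pow, Ideal.mem_span_singleton] at h1
    have h2 := mul_dvd_mul ha (dvd_refl (ψ t))
    rw [← pow_two] at h2
    rw [hT γ0 t]
    convert dvd_add h1 h2 using 1
    ring
  · by_contra hnu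
    refine hu (Ideal.mem_span_singleton.2 ?_)
    have h1 := S.zero_of_mem ((mem_maximalIdeal _).2 hnu)
    rw [map_sum, map_sum] at h1
    rw [← sub_zero (∑ j ∈ Finset.range d, c ^ j), ← h1, ← Finset.sum_sub_distrib]
    refine Finset.dvd_sum fun j _ => ?_
    rw [map_pow, map_pow]
    exact ha.trans (sub_dvd_pow_sub_pow _ _ _)

end Pool.Agent.MP_deef5c_ag.TraceRes
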