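import Pool.Agent.MP_deef5c_ag.Inv

/-! Residue characteristic two: the fixed scheme of an involution descends along a commuting
involution. -/

open Finset IsLocalRing

namespace Pool.Agent.MP_deef5c_ag

variable {A B O : Type*} [CommRing A] [IsLocalRing A] [IsArtinianRing A] [CommRing B] [Algebra A B]
  [CommRing O] [IsDomain O] [Module.Flat A B] {ψ : B →+* O} {t : B}

omit [IsArtinianRing A] [IsDomain O] [Module.Flat A B] in
theorem Setup.deriv_one (S : Setup A ψ t) (U : B →ₐ[A] B) (h1 : ψ t ∣ ψ (U t)) (hU : U (U t) = t)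
    [IsDomain O] (h2 : (2 : A) ∈ maximalIdeal A) : ψ t ^ 2 ∣ ψ (U t) - ψ t := by
  obtain ⟨w, hw⟩ := h1
  obtain ⟨a, z, hz⟩ := S.res w
  obtain ⟨z, rfl⟩ := S.surj z
  have e1 := S.ker_stable U (b := U t - t * (algebraMap A B a + t * z)) (by
    simp only [map_sub, map_mul, map_add]
    linear_combination hw + ψ t * hz)
  simp only [map_sub, map_mul, map_add, hU, AlgHom.commutes, hw] at e1
  have e2 : ψ t * (ψ (algebraMap A B (a ^ 2 - 1)) + ψ t * (ψ z * ψ (algebraMap A B a) +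
      w * w * ψ (U z))) = 0 := by
    simp only [map_sub, map_pow, map_one]
    linear_combination -e1 - ψ t * ψ (algebraMap A B a) * hz
  have e3 := S.mem_of_dvd (a := a ^ 2 - 1) ⟨-(ψ z * ψ (algebraMap A B a) + w * w * ψ (U z)), by
    linear_combination (mul_eq_zero.1 e2).resolve_left S.ne⟩
  have e4 : a - 1 ∈ maximalIdeal A := by
    refine Ideal.IsPrime.mem_of_pow_mem inferInstance 2 ?_
    have := sub_mem e3 (Ideal.mul_mem_right (a - 1) _ h2)
    convert this using 1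
    ring
  have e5 := S.zero_of_mem e4
  simp only [map_sub, map_one] at e5
  exact ⟨ψ z, by linear_combination hw + ψ t * hz + ψ t * e5⟩

theorem descend (S : Setup A ψ t) {U V : B →ₐ[A] B} (hV : Invol ψ t V) (hW : Invol ψ t (U.comp V))
    (hU : ∀ b, U (U b) = b) (hc : ∀ b, U (V b) = V (U b)) (h1 : ψ (U t - t) ≠ 0)
    (h2 : ψ t ∣ ψ (U t)) : ∃ ε : Inv V, Associated (ε : B) (U t - t) := by
  have hc' : ∀ b, (U.comp V) (U b) = U ((U.comp V) b) := fun b => by simp [hc]
  have := hW.flat S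
  obtain ⟨w, hw⟩ := (hW.setup S).dvd_sub_one (restr _ U hc')
    (hW.restr_ne S hc' h1 (by simpa [hU] using hV.ne)) (hW.restr_dvd S hc' h2) hW.trc
  have e1 : U (t + U (V t)) - (t + U (V t)) = (U (t * U (V t)) - t * U (V t)) * w :=
    congrArg Subtype.val hw
  simp only [map_add, map_mul, hU] at e1
  obtain ⟨v, hv⟩ := (S.unit_one_sub w).exists_right_inv
  obtain ⟨c0, c1, hcc⟩ := hV.dec S (U t - t)
  have e2 := congrArg V hcc
  have k0 : V c0 = c0 := c0.2
  have k1 : V c1 = c1 := c1.2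
  rw [map_add, map_mul, k0, k1, map_sub, ← hc] at e2
  have e3 : (c1 : B) = -(w * v) * (U t - t) := by
    refine sub_eq_zero.1 (S.nzd hV.ne ?_)
    have e4 : (U t - t) * (V t - t) = (U t * V t - t * U (V t)) * (1 - t * w) := by
      linear_combination -t * e1
    linear_combination hcc - e2 - e1 + w * v * e4 + (U t * V t - t * U (V t)) * w * hv
  refine ⟨c0, ?_⟩
  have e5 : (c0 : B) = (U t - t) * (1 - t * -(w * v)) := by linear_combination -hcc - t * e3
  rw [e5]
  exact associated_mul_unit_left _ _ (S.unit_one_sub _)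

variable {H : Type*} [Group H] {T : H → B →ₐ[A] B}

theorem Act.main_two [Finite H] (S : Setup A ψ t) (h : Act ψ t T)
    (hne : ∀ g, g ≠ 1 → ψ (T g t - t) ≠ 0) (σ γ τ : H) (hgen : Subgroup.closure {σ, γ, τ} = ⊤)
    (hσ : σ * σ = 1) (hγ : γ * γ = 1) (hτ : τ * τ = 1 ∨ τ * τ = γ) (c1 : σ * γ = γ * σ)
    (c2 : τ * γ = γ * τ) (c3 : σ * τ = τ * σ) (n1 : γ ≠ 1) (n2 : σ ≠ 1) (n3 : σ ≠ γ) (n4 : τ ≠ 1)
    (n5 : τ ≠ γ) (n6 : σ ≠ τ) (n7 : σ ≠ τ * γ) (d : ℕ)
    (hd : Associated (ψ (T σ t - t)) (ψ t ^ d)) (h4 : ¬ 4 ∣ d) (h2 : (2 : A) ∈ maximalIdeal A) :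
    (2 : A) = 0 := by
  have hcen : ∀ g : H, g * γ = γ * g := fun g => by
    have : Subgroup.closure {σ, γ, τ} ≤ Subgroup.centralizer {γ} := by
      rw [Subgroup.closure_le]
      rintro g (rfl | rfl | rfl) <;> simp [Subgroup.mem_centralizer_iff, c1, c2]
    exact (Subgroup.mem_centralizer_iff.1 (this (hgen ▸ Subgroup.mem_top g)) γ rfl).symm
  have hV : Invol ψ t (T γ) := ⟨fun b => by rw [← h.mul, hγ, h.one], hne γ n1, h.dvd γ⟩
  have hcT : ∀ g b, T γ (T g b) = T g (T γ b) := fun g b => by rw [← h.mul, ← h.mul, hcen]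
  have hσσ : ∀ b, T σ (T σ b) = b := fun b => by rw [← h.mul, hσ, h.one]
  have hne' : ∀ g, g ≠ γ → ψ (T g (T γ t) - t) ≠ 0 := fun g hg => by
    rw [← h.mul]
    exact hne _ fun e => hg (by rw [← one_mul g, ← hγ, mul_assoc, e, mul_one])
  have hW : Invol ψ t ((T σ).comp (T γ)) :=
    ⟨fun b => by simp [hcT, hσσ, hV.sq], hne' σ n3, by
      rw [AlgHom.comp_apply, ← h.mul]; exact h.dvd _⟩
  obtain ⟨ε, hε⟩ := descend S hV hW hσσ (fun b => (hcT σ b).symm) (hne σ n2) (h.dvd σ)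
  have := hV.flat S
  have S' := hV.setup S
  let T' : H → Inv (T γ) →ₐ[A] Inv (T γ) := fun g => restr _ (T g) (hcT g)
  have hγ' : ∀ c, T' γ c = c := fun c => Subtype.ext c.2
  have hn' : ∀ g, g ≠ 1 → g ≠ γ → invRed ψ (T γ) (T' g hV.nrm - hV.nrm) ≠ 0 := fun g a b =>
    hV.restr_ne S _ (hne g a) (hne' g b)
  have h' : Act (invRed ψ (T γ)) hV.nrm T' :=
    { one := fun c => Subtype.ext (h.one c)
      mul := fun a b c => Subtype.ext (h.mul a b c)
      dich := fun g => by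
        by_cases a : g = 1
        · exact Or.inr fun c => Subtype.ext (a ▸ h.one c)
        by_cases b : g = γ
        · exact Or.inr (b ▸ hγ')
        · exact Or.inl (hn' g a b)
      dvd := fun g => hV.restr_dvd S _ (h.dvd g) }
  have hε0 : ψ ε ≠ 0 := (hε.map ψ).ne_zero_iff.2 (hne σ n2)
  set J : Ideal (Inv (T γ)) := Ideal.span {ε, T' τ hV.nrm - hV.nrm} with hJ
  have hfix : h'.fixSub J = ⊤ := by
    rw [eq_top_iff, ← hgen, Subgroup.closure_le]
    rintro g (rfl | rfl | rfl)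
    · intro c
      refine J.mem_of_dvd ?_ (Ideal.subset_span (by simp : ε ∈ _))
      exact Invol.dvd_inv S hε0 (hε.dvd.trans (h.dvd_sub S g c))
    · intro c
      simp [hγ']
    · exact h'.mem_fixSub S' (Ideal.subset_span (by simp))
  obtain ⟨L, hL⟩ := h'.exists_char S' J hfix (hn' σ n2 n3)
  have hsq : ∀ g : H, (g * g = 1 ∨ g * g = γ) → ∀ c, T' g (T' g c) = c := fun g hg c => by
    rw [← h'.mul]
    rcases hg with e | e <;> rw [e]
    · exact h'.one c
    · exact hγ' c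
  have hL' : ∀ g : H, g ≠ 1 → g ≠ γ → (g * g = 1 ∨ g * g = γ) → 1 + L g = 0 := fun g a b e => by
    simpa [sum_range_succ] using hL g (hn' g a b) 2 (by rw [pow_two, h'.mul, hsq g e])
  have l1 := hL' σ n2 n3 (Or.inl hσ)
  have l2 := hL' τ n4 n5 hτ
  have l3 := hL' (σ * τ) (fun e => n6 (by rw [← mul_one σ, ← e, ← mul_assoc, hσ, one_mul]))
    (fun e => n7 (by
      rw [← e, c3, ← mul_assoc]
      rcases hτ with e' | e'
      · rw [e', one_mul]
      · exfalso
        apply n6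
        have : σ * τ = τ * τ := e.trans e'.symm
        exact mul_right_cancel this))
    (by rw [mul_assoc, ← mul_assoc τ, ← c3, mul_assoc, ← mul_assoc, hσ, one_mul]; exact hτ)
  have h2J : ((2 : ℕ) : Inv (T γ)) ∈ J := by
    rw [← Ideal.Quotient.eq_zero_iff_mem, map_natCast]
    rw [map_mul] at l3
    push_cast
    linear_combination l3 + l1 - L σ * l2
  obtain ⟨d', hd'⟩ := S'.pw (invRed ψ (T γ) ε) fun e => hε0 (congrArg Subtype.val e)
  have hdd : d = 2 * d' := by
    have a1 : Associated (ψ ε) (ψ hV.nrm ^ d') := by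
      have := hd'.map (Subring.subtype _)
      rwa [map_pow] at this
    have a2 := (hd.symm.trans (hε.map ψ).symm).trans (a1.trans (hV.nrm_assoc S).pow_pow)
    rw [← pow_mul] at a2
    exact le_antisymm ((pow_dvd_pow_iff S.ne S.nu).1 a2.dvd)
      ((pow_dvd_pow_iff S.ne S.nu).1 a2.symm.dvd)
  have hst : ε ∣ T' τ ε := by
    refine Invol.dvd_inv S hε0 (hε.dvd.trans ?_)
    refine Dvd.dvd.trans ?_ (hε.symm.map (T τ)).dvd
    rw [map_sub, ← h.mul, c3, h.mul]
    exact h.dvd_sub S σ _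
  have := S'.trace_kill (T' τ) hd' hst 1 (by
    rw [map_one, map_one, one_mul]
    exact S'.deriv_one (T' τ) (h'.dvd τ) (hsq τ hτ _) h2) ?_ 2 h2J
  · exact_mod_cast this
  obtain ⟨k, hk⟩ : Odd d' := by
    rw [← Nat.not_even_iff_odd]
    rintro ⟨k, hk⟩
    exact h4 ⟨k, by omega⟩
  by_contra hu
  have h5 := sub_mem ((mem_maximalIdeal _).2 hu) (Ideal.mul_mem_right (k : A) _ h2)
  simp only [one_pow, sum_const, card_range, nsmul_eq_mul, mul_one, hk] at h5
  push_cast at h5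
  rw [add_sub_cancel_left] at h5
  exact h5 isUnit_one

end Pool.Agent.MP_deef5c_ag
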