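import Pool.Agent.MP_deef5c_ag.Red
import Pool.Agent.MP_deef5c_ag.Two

open CategoryTheory AlgebraicGeometry IsLocalRing Pool.Agent.MP_deef5c_ag

universe u v

namespace Pool.Agent.MP_deef5c_ag.TwoDescentRes

/-- Characteristic `2`.  Let `σ, γ, τ` fix a rational point `x` of a smooth curve and generate
`(ℤ/2)³` (case `τ² = 1`) or `ℤ/4 × ℤ/2` (case `τ² = γ`, so `σ` is a non-square involution).
If `i(σ)` is not divisible by `4` then every local Artinian ring to which the action lifts has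
characteristic `2`. -/
theorem result (k : Type u) [Field k] [CharP k 2]
    (X : Scheme.{u}) [IsIntegral X] (f : X ⟶ Spec (.of k)) [IsSeparated f]
    [SmoothOfRelativeDimension 1 f]
    (G : Type v) [Group G] [Finite G] (ρ : G →* Aut X) (hρ : Function.Injective ρ)
    (hρk : ∀ g, (ρ g).hom ≫ f = f)
    (x : X) (s : Spec (.of k) ⟶ X) (hs : s ≫ f = 𝟙 _) (hx : s (closedPoint k) = x)
    (σ γ τ : G) (hσ : (ρ σ).hom x = x) (hγ : (ρ γ).hom x = x) (hτ : (ρ τ).hom x = x)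
    (hσ2 : σ * σ = 1) (hγ2 : γ * γ = 1) (hτ2 : τ * τ = 1 ∨ τ * τ = γ)
    (c1 : Commute σ γ) (c2 : Commute τ γ) (c3 : Commute σ τ)
    (n1 : γ ≠ 1) (n2 : τ ∉ ({1, γ} : Set G)) (n3 : σ ∉ ({1, γ, τ, τ * γ} : Set G))
    (d : ℕ) (hd : Ideal.span (Set.range fun y => (locMap (ρ σ).hom x hσ).hom y - y) =
      maximalIdeal (X.presheaf.stalk x) ^ d)
    (h4 : ¬ 4 ∣ d)
    (A : Type u) [CommRing A] [IsLocalRing A] [IsArtinianRing A] (π : A →+* k)
    (hπ : Function.Surjective π) (hA : LiftsTo f ρ π) : ringChar A = 2 := by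
  obtain ⟨X', f', ι, ρ', hsm, hι, hρA, hred⟩ := hA
  set K : Subgroup G := Subgroup.closure {σ, γ, τ} with hKdef
  have hK : ∀ g ∈ K, (ρ g).hom x = x :=
    fix_closure ρ x _ (by rintro g (rfl | rfl | rfl) <;> assumption)
  let σ0 : K := ⟨σ, Subgroup.subset_closure (by simp)⟩
  let γ0 : K := ⟨γ, Subgroup.subset_closure (by simp)⟩
  let τ0 : K := ⟨τ, Subgroup.subset_closure (by simp)⟩
  have hgen : Subgroup.closure ({σ0, γ0, τ0} : Set K) = ⊤ := by
    rw [← Subgroup.closure_closure_coe_preimage (k := ({σ, γ, τ} : Set G))]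
    congr 1
    ext g
    simp [σ0, γ0, τ0, Subtype.ext_iff]
  simp only [Set.mem_insert_iff, Set.mem_singleton_iff, not_or] at n2 n3
  obtain ⟨B, _, _, _, ψ, t, T, S, h, hne, hmax, hT⟩ :=
    reduce hρ hρk hs hx K hK γ0 (fun e => n1 (congrArg Subtype.val e)) hπ hι hρA hred
  rw [hmax] at hd
  refine ringChar_of_eq_zero 2 ?_
  have h2 : (2 : A) ∈ maximalIdeal A := by
    rw [← IsLocalRing.ker_eq_maximalIdeal π hπ, RingHom.mem_ker, map_ofNat]
    exact CharTwo.two_eq_zero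
  exact_mod_cast h.main_two S hne σ0 γ0 τ0 hgen (Subtype.ext hσ2) (Subtype.ext hγ2)
    (hτ2.imp Subtype.ext Subtype.ext) (Subtype.ext c1) (Subtype.ext c2) (Subtype.ext c3)
    (fun e => n1 (congrArg Subtype.val e)) (fun e => n3.1 (congrArg Subtype.val e))
    (fun e => n3.2.1 (congrArg Subtype.val e)) (fun e => n2.1 (congrArg Subtype.val e))
    (fun e => n2.2 (congrArg Subtype.val e)) (fun e => n3.2.2.1 (congrArg Subtype.val e))
    (fun e => n3.2.2.2 (congrArg Subtype.val e)) d (assoc_of_span S h σ0 _ (hT σ0) hd) h4 h2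

end Pool.Agent.MP_deef5c_ag.TwoDescentRes
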